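import Pool.Agent.X164.MP.Four
import Pool.Agent.Y951.WP.Main
set_option autoImplicit false
set_option linter.unusedSectionVars false

/-! Bilinear sums with the kernel `ψ(G(a b))`, `G` a polynomial. -/

namespace Pool.Agent.X164.MP

open Finset Polynomial

variable {p : ℕ} [Fact p.Prime]

theorem card_roots_le (n : ℕ) (hn : 0 < n) (c : ZMod p) :
    (Finset.univ.filter (fun y : ZMod p => y ^ n = c)).card ≤ n := by
  classical
  have h1 : Finset.univ.filter (fun y : ZMod p => y ^ n = c) ⊆ (nthRoots n c).toFinset := by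
    intro y hy
    rw [Multiset.mem_toFinset, mem_nthRoots hn]
    exact (Finset.mem_filter.1 hy).2
  exact (Finset.card_le_card h1).trans ((Multiset.toFinset_card_le _).trans (card_nthRoots n c))

/-- complete sums of differences -/
theorem diff_sum {k : ℕ} (hkp : k < p) (G : (ZMod p)[X]) (hG1 : 1 ≤ G.natDegree)
    (hGk : G.natDegree ≤ k) (b b' : ZMod p) (hb : b' ^ G.natDegree ≠ b ^ G.natDegree) :
    ‖∑ a : ZMod p, (ZMod.stdAddChar (G.eval (a * b) - G.eval (a * b')) : ℂ)‖ ≤ k * Real.sqrt p := by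
  set D : (ZMod p)[X] := G.comp (C b * X) - G.comp (C b' * X) with hD
  have heval : ∀ a : ZMod p, D.eval a = G.eval (a * b) - G.eval (a * b') := by
    intro a
    rw [hD, eval_sub, eval_comp, eval_comp, eval_mul, eval_mul, eval_C, eval_C, eval_X,
      mul_comm b, mul_comm b']
  have hdeg : D.natDegree ≤ k := by
    refine (natDegree_sub_le _ _).trans (max_le ?_ ?_)
    · refine (natDegree_comp_le).trans ?_
      calc G.natDegree * (C b * X).natDegree ≤ G.natDegree * 1 :=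
            Nat.mul_le_mul_left _ ((natDegree_C_mul_le b X).trans natDegree_X_le)
        _ ≤ k := by rw [mul_one]; exact hGk
    · refine (natDegree_comp_le).trans ?_
      calc G.natDegree * (C b' * X).natDegree ≤ G.natDegree * 1 :=
            Nat.mul_le_mul_left _ ((natDegree_C_mul_le b' X).trans natDegree_X_le)
        _ ≤ k := by rw [mul_one]; exact hGk
  have hcoeff : D.coeff G.natDegree ≠ 0 := by
    rw [hD, coeff_sub, comp_C_mul_X_coeff, comp_C_mul_X_coeff, ← mul_sub]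
    refine mul_ne_zero ?_ (sub_ne_zero.2 (Ne.symm hb))
    intro h
    rw [← leadingCoeff, leadingCoeff_eq_zero] at h
    rw [h, natDegree_zero] at hG1
    omega
  have hD1 : 1 ≤ D.natDegree := hG1.trans (le_natDegree_of_ne_zero hcoeff)
  have hndvd : ¬ p ∣ D.natDegree := fun h => by
    have := Nat.le_of_dvd hD1 h
    omega
  have h1 := Pool.Agent.Y951.WP.weil_le p D hndvd (ZMod.isPrimitive_stdAddChar p)
  simp only [heval] at h1
  refine h1.trans (mul_le_mul_of_nonneg_right ?_ (Real.sqrt_nonneg _))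
  exact_mod_cast (Nat.sub_le _ _).trans hdeg

theorem bilin {k : ℕ} (hkp : k < p) (G : (ZMod p)[X]) (hG1 : 1 ≤ G.natDegree)
    (hGk : G.natDegree ≤ k) (A B : Finset (ZMod p)) :
    ‖∑ a ∈ A, ∑ b ∈ B, (ZMod.stdAddChar (G.eval (a * b)) : ℂ)‖ ^ 2 ≤
      A.card * (k * p * B.card + k * Real.sqrt p * (B.card : ℝ) ^ 2) := by
  classical
  have hcs : ‖∑ a ∈ A, ∑ b ∈ B, (ZMod.stdAddChar (G.eval (a * b)) : ℂ)‖ ^ 2 ≤
      A.card * ∑ a : ZMod p, ‖∑ b ∈ B, (ZMod.stdAddChar (G.eval (a * b)) : ℂ)‖ ^ 2 := by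
    have h1 : ‖∑ a ∈ A, ∑ b ∈ B, (ZMod.stdAddChar (G.eval (a * b)) : ℂ)‖ ≤
        ∑ a ∈ A, ‖∑ b ∈ B, (ZMod.stdAddChar (G.eval (a * b)) : ℂ)‖ := norm_sum_le _ _
    have h2 := sq_sum_le_card_mul_sum_sq (s := A)
      (f := fun a => ‖∑ b ∈ B, (ZMod.stdAddChar (G.eval (a * b)) : ℂ)‖)
    have h3 : ∑ a ∈ A, ‖∑ b ∈ B, (ZMod.stdAddChar (G.eval (a * b)) : ℂ)‖ ^ 2 ≤
        ∑ a : ZMod p, ‖∑ b ∈ B, (ZMod.stdAddChar (G.eval (a * b)) : ℂ)‖ ^ 2 :=
      Finset.sum_le_sum_of_subset_of_nonneg (Finset.subset_univ _) fun a _ _ => by positivity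
    calc _ ≤ (∑ a ∈ A, ‖∑ b ∈ B, (ZMod.stdAddChar (G.eval (a * b)) : ℂ)‖) ^ 2 :=
          pow_le_pow_left₀ (norm_nonneg _) h1 2
      _ ≤ A.card * ∑ a ∈ A, ‖∑ b ∈ B, (ZMod.stdAddChar (G.eval (a * b)) : ℂ)‖ ^ 2 := h2
      _ ≤ _ := mul_le_mul_of_nonneg_left h3 (Nat.cast_nonneg _)
  have hexp : ((∑ a : ZMod p, ‖∑ b ∈ B, (ZMod.stdAddChar (G.eval (a * b)) : ℂ)‖ ^ 2 : ℝ) : ℂ) =
      ∑ b ∈ B, ∑ b' ∈ B, ∑ a : ZMod p,
        (ZMod.stdAddChar (G.eval (a * b) - G.eval (a * b')) : ℂ) := by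
    push_cast
    have h1 : ∀ a : ZMod p, ((‖∑ b ∈ B, (ZMod.stdAddChar (G.eval (a * b)) : ℂ)‖ : ℝ) : ℂ) ^ 2 =
        ∑ b ∈ B, ∑ b' ∈ B, (ZMod.stdAddChar (G.eval (a * b) - G.eval (a * b')) : ℂ) := by
      intro a
      rw [← Complex.conj_mul', mul_comm, map_sum, Finset.sum_mul_sum]
      refine Finset.sum_congr rfl fun b _ => Finset.sum_congr rfl fun b' _ => ?_
      rw [conj_psi, ← AddChar.map_add_eq_mul, sub_eq_add_neg]
    rw [Finset.sum_congr rfl fun a _ => h1 a, Finset.sum_comm]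
    refine Finset.sum_congr rfl fun b _ => ?_
    rw [Finset.sum_comm]
  have hbound : ∑ a : ZMod p, ‖∑ b ∈ B, (ZMod.stdAddChar (G.eval (a * b)) : ℂ)‖ ^ 2 ≤
      k * p * B.card + k * Real.sqrt p * (B.card : ℝ) ^ 2 := by
    have hnn : 0 ≤ ∑ a : ZMod p, ‖∑ b ∈ B, (ZMod.stdAddChar (G.eval (a * b)) : ℂ)‖ ^ 2 :=
      Finset.sum_nonneg fun a _ => by positivity
    have h1 : ∑ a : ZMod p, ‖∑ b ∈ B, (ZMod.stdAddChar (G.eval (a * b)) : ℂ)‖ ^ 2 =
        ‖((∑ a : ZMod p, ‖∑ b ∈ B, (ZMod.stdAddChar (G.eval (a * b)) : ℂ)‖ ^ 2 : ℝ) : ℂ)‖ := by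
      rw [Complex.norm_real, Real.norm_eq_abs, abs_of_nonneg hnn]
    rw [h1, hexp]
    have h2 : ∀ b ∈ B, ‖∑ b' ∈ B, ∑ a : ZMod p,
        (ZMod.stdAddChar (G.eval (a * b) - G.eval (a * b')) : ℂ)‖ ≤
        k * p + k * Real.sqrt p * B.card := by
      intro b _
      refine (norm_sum_le _ _).trans ?_
      have h3 : ∀ b' ∈ B, ‖∑ a : ZMod p,
          (ZMod.stdAddChar (G.eval (a * b) - G.eval (a * b')) : ℂ)‖ ≤
          (if b' ^ G.natDegree = b ^ G.natDegree then (p : ℝ) else 0) + k * Real.sqrt p := by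
        intro b' _
        by_cases h : b' ^ G.natDegree = b ^ G.natDegree
        · rw [if_pos h]
          refine (norm_sum_le _ _).trans ?_
          simp only [norm_psi, Finset.sum_const, Finset.card_univ, ZMod.card, nsmul_eq_mul, mul_one]
          have : (0 : ℝ) ≤ k * Real.sqrt p := by positivity
          linarith
        · rw [if_neg h, zero_add]
          exact diff_sum hkp G hG1 hGk b b' h
      refine (Finset.sum_le_sum h3).trans ?_
      rw [Finset.sum_add_distrib, Finset.sum_const, nsmul_eq_mul, ← Finset.sum_filter,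
        Finset.sum_const, nsmul_eq_mul]
      have h4 : (B.filter (fun b' => b' ^ G.natDegree = b ^ G.natDegree)).card ≤ k := by
        refine le_trans (Finset.card_le_card ?_) ((card_roots_le G.natDegree hG1
          (b ^ G.natDegree)).trans hGk)
        exact Finset.filter_subset_filter _ (Finset.subset_univ _)
      have h5 : ((B.filter (fun b' => b' ^ G.natDegree = b ^ G.natDegree)).card : ℝ) * p ≤ k * p :=
        mul_le_mul_of_nonneg_right (by exact_mod_cast h4) (Nat.cast_nonneg _)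
      linarith
    refine (norm_sum_le _ _).trans ((Finset.sum_le_sum h2).trans (le_of_eq ?_))
    rw [Finset.sum_const, nsmul_eq_mul]
    ring
  exact hcs.trans (mul_le_mul_of_nonneg_left hbound (Nat.cast_nonneg _))

/-- the power saving -/
theorem bilin_saving {k : ℕ} (hkp : k < p) {ε : ℝ} (hε : 0 < ε) (hk2 : (2 : ℝ) * k ≤ (p : ℝ) ^ (ε / 4))
    (G : (ZMod p)[X]) (hG1 : 1 ≤ G.natDegree) (hGk : G.natDegree ≤ k) (A B : Finset (ZMod p))
    (hAB : (p : ℝ) ^ (1 + ε) ≤ A.card * B.card) (hle : B.card ≤ A.card) :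
    ‖∑ a ∈ A, ∑ b ∈ B, (ZMod.stdAddChar (G.eval (a * b)) : ℂ)‖ ≤
      (A.card * B.card : ℝ) * (p : ℝ) ^ (-(ε / 8)) := by
  have hpp : p.Prime := Fact.out
  have hp0 : (0 : ℝ) < p := by exact_mod_cast hpp.pos
  have hp1 : (1 : ℝ) ≤ p := by exact_mod_cast hpp.one_lt.le
  have h := bilin hkp G hG1 hGk A B
  have hABpos : (0 : ℝ) < A.card * B.card := lt_of_lt_of_le (by positivity) hAB
  have hApos : (0 : ℝ) < A.card := by
    rcases (Nat.cast_nonneg (α := ℝ) A.card).eq_or_lt with h0 | h0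
    · rw [← h0, zero_mul] at hABpos
      exact absurd hABpos (lt_irrefl _)
    · exact h0
  have hBnn : (0 : ℝ) ≤ B.card := Nat.cast_nonneg _
  -- the size of `A`
  have hA : (p : ℝ) ^ (1 / 2 + ε / 2) ≤ A.card := by
    have h1 : ((p : ℝ) ^ (1 / 2 + ε / 2)) ^ 2 ≤ (A.card : ℝ) ^ 2 := by
      calc ((p : ℝ) ^ (1 / 2 + ε / 2)) ^ 2 = (p : ℝ) ^ (1 + ε) := by
            rw [← Real.rpow_natCast, ← Real.rpow_mul hp0.le]
            congr 1
            push_cast
            ring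
        _ ≤ A.card * B.card := hAB
        _ ≤ (A.card : ℝ) ^ 2 := by
            rw [sq]
            exact mul_le_mul_of_nonneg_left (by exact_mod_cast hle) (Nat.cast_nonneg _)
    exact le_of_sq_le_sq h1 (Nat.cast_nonneg _)
  set P : ℝ := (A.card : ℝ) * B.card with hP
  have e1 : (p : ℝ) ≤ P * (p : ℝ) ^ (-(ε / 2)) := by
    calc (p : ℝ) = (p : ℝ) ^ (1 + ε) * (p : ℝ) ^ (-ε) := by
          rw [← Real.rpow_add hp0]
          simp
      _ ≤ P * (p : ℝ) ^ (-(ε / 2)) := by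
          refine mul_le_mul hAB ?_ (by positivity) hABpos.le
          exact Real.rpow_le_rpow_of_exponent_le hp1 (by linarith)
  have e2 : Real.sqrt p ≤ A.card * (p : ℝ) ^ (-(ε / 2)) := by
    calc Real.sqrt p = (p : ℝ) ^ (1 / 2 + ε / 2) * (p : ℝ) ^ (-(ε / 2)) := by
          rw [← Real.rpow_add hp0, Real.sqrt_eq_rpow]
          congr 1
          ring
      _ ≤ A.card * (p : ℝ) ^ (-(ε / 2)) := mul_le_mul_of_nonneg_right hA (by positivity)
  have h2 : (A.card : ℝ) * (k * p * B.card + k * Real.sqrt p * (B.card : ℝ) ^ 2) ≤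
      (P * (p : ℝ) ^ (-(ε / 8))) ^ 2 := by
    have g1 : (A.card : ℝ) * (k * p * B.card) ≤ P ^ 2 * (k * (p : ℝ) ^ (-(ε / 2))) := by
      calc (A.card : ℝ) * (k * p * B.card) = (P * k) * p := by rw [hP]; ring
        _ ≤ (P * k) * (P * (p : ℝ) ^ (-(ε / 2))) :=
            mul_le_mul_of_nonneg_left e1 (by positivity)
        _ = _ := by ring
    have g2 : (A.card : ℝ) * (k * Real.sqrt p * (B.card : ℝ) ^ 2) ≤
        P ^ 2 * (k * (p : ℝ) ^ (-(ε / 2))) := by
      calc (A.card : ℝ) * (k * Real.sqrt p * (B.card : ℝ) ^ 2) =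
            (A.card * k * (B.card : ℝ) ^ 2) * Real.sqrt p := by ring
        _ ≤ (A.card * k * (B.card : ℝ) ^ 2) * (A.card * (p : ℝ) ^ (-(ε / 2))) :=
            mul_le_mul_of_nonneg_left e2 (by positivity)
        _ = _ := by rw [hP]; ring
    have g3 : 2 * (k : ℝ) * (p : ℝ) ^ (-(ε / 2)) ≤ (p : ℝ) ^ (-(ε / 4)) := by
      calc 2 * (k : ℝ) * (p : ℝ) ^ (-(ε / 2)) ≤ (p : ℝ) ^ (ε / 4) * (p : ℝ) ^ (-(ε / 2)) :=
            mul_le_mul_of_nonneg_right hk2 (by positivity)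
        _ = (p : ℝ) ^ (-(ε / 4)) := by
            rw [← Real.rpow_add hp0]
            congr 1
            ring
    have g4 : (P * (p : ℝ) ^ (-(ε / 8))) ^ 2 = P ^ 2 * (p : ℝ) ^ (-(ε / 4)) := by
      rw [mul_pow, ← Real.rpow_natCast, ← Real.rpow_natCast, ← Real.rpow_mul hp0.le]
      congr 2
      push_cast
      ring
    rw [g4, mul_add]
    have g5 := mul_le_mul_of_nonneg_left g3 (by positivity : 0 ≤ P ^ 2)
    linarith
  exact le_of_sq_le_sq (h.trans h2) (by positivity)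

end Pool.Agent.X164.MP
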