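import Pool.Agent.X164.MP.Diag
set_option autoImplicit false
set_option linter.unusedSectionVars false

/-! Systems of bilinear forms modulo a prime on arbitrary sets. -/

namespace Pool.Agent.X164.MP

open Finset Filter Matrix
open Pool.Agent.H256R2.SC (ff)

variable {p : ℕ} [Fact p.Prime]

theorem full_sum (d : ℕ) (z : Fin d → ZMod p) :
    ∑ x : Fin d → ZMod p, (ZMod.stdAddChar (x ⬝ᵥ z) : ℂ) = if z = 0 then (p : ℂ) ^ d else 0 := by
  classical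
  have h1 : ∀ x : Fin d → ZMod p, (ZMod.stdAddChar (x ⬝ᵥ z) : ℂ) =
      ∏ j, (ZMod.stdAddChar (x j * z j) : ℂ) := by
    intro x
    rw [← psi_sum]
    rfl
  simp only [h1]
  have h2 : ∑ x : Fin d → ZMod p, ∏ j, (ZMod.stdAddChar (x j * z j) : ℂ) =
      ∏ j, ∑ t : ZMod p, (ZMod.stdAddChar (t * z j) : ℂ) := by
    rw [Finset.prod_univ_sum]
    simp only [Fintype.piFinset_univ]
  rw [h2]
  have h3 : ∀ j, ∑ t : ZMod p, (ZMod.stdAddChar (t * z j) : ℂ) = if z j = 0 then (p : ℂ) else 0 := by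
    intro j
    have := AddChar.sum_mulShift (z j) (ZMod.isPrimitive_stdAddChar p)
    rw [this, ZMod.card]
    split_ifs <;> simp
  simp only [h3]
  by_cases hz : z = 0
  · rw [if_pos hz]
    subst hz
    simp
  · rw [if_neg hz]
    obtain ⟨i, hi⟩ : ∃ i, z i ≠ 0 := by
      by_contra hcon
      push Not at hcon
      exact hz (funext hcon)
    exact Finset.prod_eq_zero (Finset.mem_univ i) (if_neg hi)

theorem sq_sum (d : ℕ) (F : Finset (Fin d → ZMod p)) (b : (Fin d → ZMod p) → ℂ)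
    (hb : ∀ y, ‖b y‖ = 1) (M : Matrix (Fin d) (Fin d) (ZMod p))
    (hM : Function.Injective M.mulVec) :
    ∑ x : Fin d → ZMod p, ‖∑ y ∈ F, b y * (ZMod.stdAddChar (x ⬝ᵥ (M *ᵥ y)) : ℂ)‖ ^ 2 =
      (p : ℝ) ^ d * F.card := by
  classical
  have h1 : ((∑ x : Fin d → ZMod p, ‖∑ y ∈ F, b y * (ZMod.stdAddChar (x ⬝ᵥ (M *ᵥ y)) : ℂ)‖ ^ 2
      : ℝ) : ℂ) = (((p : ℝ) ^ d * F.card : ℝ) : ℂ) := by
    push_cast
    have h2 : ∀ x : Fin d → ZMod p,
        ((‖∑ y ∈ F, b y * (ZMod.stdAddChar (x ⬝ᵥ (M *ᵥ y)) : ℂ)‖ : ℝ) : ℂ) ^ 2 =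
        ∑ y ∈ F, ∑ y' ∈ F, b y * (starRingEnd ℂ) (b y') *
          (ZMod.stdAddChar (x ⬝ᵥ (M *ᵥ y - M *ᵥ y')) : ℂ) := by
      intro x
      rw [← Complex.mul_conj', map_sum, Finset.sum_mul_sum]
      refine Finset.sum_congr rfl fun y _ => Finset.sum_congr rfl fun y' _ => ?_
      rw [map_mul, conj_psi, dotProduct_sub, sub_eq_add_neg, AddChar.map_add_eq_mul]
      ring
    simp only [h2]
    rw [Finset.sum_comm]
    have h3 : ∀ y ∈ F, ∑ x : Fin d → ZMod p, ∑ y' ∈ F, b y * (starRingEnd ℂ) (b y') *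
          (ZMod.stdAddChar (x ⬝ᵥ (M *ᵥ y - M *ᵥ y')) : ℂ) = (p : ℂ) ^ d := by
      intro y hy
      rw [Finset.sum_comm]
      have h4 : ∀ y' ∈ F, ∑ x : Fin d → ZMod p, b y * (starRingEnd ℂ) (b y') *
          (ZMod.stdAddChar (x ⬝ᵥ (M *ᵥ y - M *ᵥ y')) : ℂ) =
          if y' = y then (p : ℂ) ^ d else 0 := by
        intro y' _
        rw [← Finset.mul_sum, full_sum]
        by_cases h : y' = y
        · subst h
          rw [if_pos rfl, sub_self, if_pos rfl, Complex.mul_conj', hb]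
          simp
        · rw [if_neg h, if_neg, mul_zero]
          intro h5
          exact h (hM (sub_eq_zero.1 h5)).symm
      rw [Finset.sum_congr rfl h4, Finset.sum_ite_eq' F y, if_pos hy]
    rw [Finset.sum_congr rfl h3, Finset.sum_const, nsmul_eq_mul]
    ring
  exact_mod_cast h1

theorem bil_bound (d : ℕ) (E F : Finset (Fin d → ZMod p)) (a b : (Fin d → ZMod p) → ℂ)
    (ha : ∀ y, ‖a y‖ = 1) (hb : ∀ y, ‖b y‖ = 1) (M : Matrix (Fin d) (Fin d) (ZMod p))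
    (hM : Function.Injective M.mulVec) :
    ‖∑ x ∈ E, ∑ y ∈ F, a x * b y * (ZMod.stdAddChar (x ⬝ᵥ (M *ᵥ y)) : ℂ)‖ ≤
      Real.sqrt ((E.card : ℝ) * F.card) * Real.sqrt ((p : ℝ) ^ d) := by
  have h1 : ‖∑ x ∈ E, ∑ y ∈ F, a x * b y * (ZMod.stdAddChar (x ⬝ᵥ (M *ᵥ y)) : ℂ)‖ ≤
      ∑ x ∈ E, ‖∑ y ∈ F, b y * (ZMod.stdAddChar (x ⬝ᵥ (M *ᵥ y)) : ℂ)‖ := by
    refine (norm_sum_le _ _).trans (Finset.sum_le_sum fun x _ => ?_)
    have : ∑ y ∈ F, a x * b y * (ZMod.stdAddChar (x ⬝ᵥ (M *ᵥ y)) : ℂ) =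
        a x * ∑ y ∈ F, b y * (ZMod.stdAddChar (x ⬝ᵥ (M *ᵥ y)) : ℂ) := by
      rw [Finset.mul_sum]
      exact Finset.sum_congr rfl fun y _ => by ring
    rw [this, norm_mul, ha, one_mul]
  refine h1.trans ?_
  rw [← Real.sqrt_mul (by positivity)]
  refine Real.le_sqrt_of_sq_le ?_
  have h2 := Finset.sum_mul_sq_le_sq_mul_sq E (fun _ => (1 : ℝ))
    (fun x => ‖∑ y ∈ F, b y * (ZMod.stdAddChar (x ⬝ᵥ (M *ᵥ y)) : ℂ)‖)
  simp only [one_mul, one_pow, Finset.sum_const, nsmul_eq_mul, mul_one] at h2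
  refine h2.trans ?_
  have h3 : ∑ x ∈ E, ‖∑ y ∈ F, b y * (ZMod.stdAddChar (x ⬝ᵥ (M *ᵥ y)) : ℂ)‖ ^ 2 ≤
      (p : ℝ) ^ d * F.card := by
    rw [← sq_sum d F b hb M hM]
    exact Finset.sum_le_sum_of_subset_of_nonneg (Finset.subset_univ _) fun _ _ _ => by positivity
  calc (E.card : ℝ) * ∑ x ∈ E, ‖∑ y ∈ F, b y * (ZMod.stdAddChar (x ⬝ᵥ (M *ᵥ y)) : ℂ)‖ ^ 2 ≤
      (E.card : ℝ) * ((p : ℝ) ^ d * F.card) := mul_le_mul_of_nonneg_left h3 (by positivity)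
    _ = _ := by ring

theorem bilinear_main (r : ℕ) (hr : 1 ≤ r) (ε : ℝ) (hε : 0 < ε) : ∃ κ : ℝ, 0 < κ ∧ ∃ p₀ : ℕ,
    ∀ (p : ℕ) [Fact p.Prime], p₀ ≤ p → ∀ (d : ℕ) (M : Fin r → Matrix (Fin d) (Fin d) (ZMod p)),
      (∀ h : Fin r → ZMod p, h ≠ 0 → (∑ j, h j • M j).det ≠ 0) →
      ∀ (φ χ : Fin r → (Fin d → ZMod p) → ZMod p) (E F : Finset (Fin d → ZMod p))
        (L R : Fin r → ℕ), (∀ j, R j < p) → (∀ j, (p : ℝ) ^ ε ≤ (R j : ℝ) - L j) →
      (p : ℝ) ^ ((d : ℝ) / 2 + r + ε) ≤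
        Real.sqrt ((E.card : ℝ) * F.card) * ∏ j, ((R j : ℝ) - L j) →
      ∃ x ∈ E, ∃ y ∈ F, ∀ j, L j < (x ⬝ᵥ (M j *ᵥ y) + φ j x + χ j y).val ∧
        (x ⬝ᵥ (M j *ᵥ y) + φ j x + χ j y).val ≤ R j ∧
        ∀ q : ℕ, q.Prime →
          κ * ff p < |(q : ℝ) - ((x ⬝ᵥ (M j *ᵥ y) + φ j x + χ j y).val : ℝ)| := by
  classical
  obtain ⟨κ, hκ, p₀, hcrit⟩ := critBox r hr ε hε
  refine ⟨κ, hκ, p₀, ?_⟩
  intro p hfp hp d M hM φ χ E F L R hR hlen hvol
  have hpp : p.Prime := Fact.out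
  have hp0R : (0 : ℝ) < p := by exact_mod_cast hpp.pos
  have hEF : (0 : ℝ) < (E.card : ℝ) * F.card := by
    by_contra hcon
    rw [Real.sqrt_eq_zero_of_nonpos (not_lt.1 hcon), zero_mul] at hvol
    exact absurd hvol (not_le.2 (by positivity))
  have hne : (E ×ˢ F).Nonempty := by
    rw [← Finset.card_pos, Finset.card_product]
    exact_mod_cast hEF
  obtain ⟨z, hz, hgap⟩ := hcrit p hp ((Fin d → ZMod p) × (Fin d → ZMod p)) (E ×ˢ F)
    (fun z j => z.1 ⬝ᵥ (M j *ᵥ z.2) + φ j z.1 + χ j z.2) L R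
    (Real.sqrt ((E.card : ℝ) * F.card) * Real.sqrt ((p : ℝ) ^ d)) hne (by positivity) hR hlen
    (by
      intro h hh
      rw [Finset.sum_product]
      have hinj : Function.Injective (∑ j, h j • M j).mulVec :=
        Matrix.mulVec_injective_of_isUnit ((Matrix.isUnit_iff_isUnit_det _).2
          (isUnit_iff_ne_zero.2 (hM h hh)))
      have hb := bil_bound d E F (fun x => (ZMod.stdAddChar (∑ j, h j * φ j x) : ℂ))
        (fun y => (ZMod.stdAddChar (∑ j, h j * χ j y) : ℂ)) (fun _ => norm_psi _)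
        (fun _ => norm_psi _) (∑ j, h j • M j) hinj
      refine le_trans (le_of_eq ?_) hb
      congr 1
      refine Finset.sum_congr rfl fun x _ => Finset.sum_congr rfl fun y _ => ?_
      rw [← AddChar.map_add_eq_mul, ← AddChar.map_add_eq_mul]
      congr 1
      have e1 : x ⬝ᵥ ((∑ j, h j • M j) *ᵥ y) = ∑ j, h j * (x ⬝ᵥ (M j *ᵥ y)) := by
        rw [Matrix.sum_mulVec, dotProduct_sum]
        refine Finset.sum_congr rfl fun j _ => ?_
        rw [Matrix.smul_mulVec, dotProduct_smul, smul_eq_mul]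
      rw [e1, ← Finset.sum_add_distrib, ← Finset.sum_add_distrib]
      refine Finset.sum_congr rfl fun j _ => ?_
      ring)
    (by
      have e1 : Real.sqrt ((p : ℝ) ^ d) = (p : ℝ) ^ ((d : ℝ) / 2) := by
        rw [Real.sqrt_eq_rpow, ← Real.rpow_natCast, ← Real.rpow_mul hp0R.le]
        congr 1
        ring
      have e2 : (((E ×ˢ F).card : ℕ) : ℝ) =
          Real.sqrt ((E.card : ℝ) * F.card) * Real.sqrt ((E.card : ℝ) * F.card) := by
        rw [Real.mul_self_sqrt hEF.le, Finset.card_product]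
        push_cast
        ring
      rw [e1, e2, mul_assoc, ← Real.rpow_add hp0R, mul_assoc]
      refine mul_le_mul_of_nonneg_left ?_ (Real.sqrt_nonneg _)
      rw [← add_assoc]
      exact hvol)
  obtain ⟨hx, hy⟩ := Finset.mem_product.1 hz
  exact ⟨z.1, hx, z.2, hy, hgap⟩

end Pool.Agent.X164.MP
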