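import Pool.Agent.Y961.JR.Crit
import Pool.Agent.W147.PS.Scale
set_option autoImplicit false

/-! The criterion for record prime gaps around families of vectors of integers of size at most `M`
and at least `M ^ θ`. -/

namespace Pool.Agent.X164.MP

open Finset Filter
open Pool.Agent.H256R2.SC (ff)

theorem critS (r : ℕ) (hr : 1 ≤ r) (θ : ℝ) (hθ0 : 0 < θ) (hθ1 : θ ≤ 1) :
    ∃ κ : ℝ, 0 < κ ∧ ∃ M₀ : ℝ, ∀ M : ℝ, M₀ ≤ M → ∀ (ι : Type) (s : Finset ι) (v : ι → Fin r → ℤ),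
      s.Nonempty → (∀ i ∈ s, ∀ j, M ^ θ ≤ v i j) →
      (∀ q : ℕ, 1 ≤ q → (q : ℝ) ≤ M ^ θ → ∀ ρ : Fin r → ℤ,
        |((s.filter (fun i => ∀ j, (q : ℤ) ∣ v i j - ρ j)).card : ℝ) - s.card / (q : ℝ) ^ r| ≤
          s.card * M ^ (-(2 * r * θ))) →
      ∃ i ∈ s, ∀ j, ∀ q : ℕ, q.Prime → κ * ff M < |(q : ℝ) - (v i j : ℝ)| := by
  classical
  obtain ⟨κ, hκ, X₀, hcrit⟩ := Pool.Agent.Y961.JR.critJ r hr
  have ev1 := (tendsto_rpow_atTop hθ0).eventually_ge_atTop X₀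
  have ev2 := Pool.Agent.W147.PS.ff_compare θ hθ0 hθ1
  have ev5 : ∀ᶠ M : ℝ in atTop, (Real.log M) ^ 2 + M ^ (1 / 10 : ℝ) < M := by
    have h := (isLittleO_log_rpow_atTop (show (0 : ℝ) < 1 / 10 by norm_num)).def
      (show (0 : ℝ) < 1 by norm_num)
    have h' := Pool.Agent.W147.PS.ev_pow (1 / 5) 1 3 (by norm_num)
    filter_upwards [h, h', eventually_gt_atTop (1 : ℝ)] with M h1 h2 h3
    have hM0 : (0 : ℝ) < M := by linarith
    rw [Real.norm_eq_abs, abs_of_nonneg (Real.log_nonneg h3.le), Real.norm_eq_abs,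
      abs_of_nonneg (by positivity), one_mul] at h1
    have h4 : (Real.log M) ^ 2 ≤ M ^ (1 / 5 : ℝ) := by
      calc (Real.log M) ^ 2 ≤ (M ^ (1 / 10 : ℝ)) ^ 2 :=
            pow_le_pow_left₀ (Real.log_nonneg h3.le) h1 2
        _ = M ^ (1 / 5 : ℝ) := by
            rw [← Real.rpow_natCast, ← Real.rpow_mul hM0.le]
            norm_num
    have h5 : M ^ (1 / 10 : ℝ) ≤ M ^ (1 / 5 : ℝ) :=
      Real.rpow_le_rpow_of_exponent_le h3.le (by norm_num)
    have h6 : (0 : ℝ) < M ^ (1 / 5 : ℝ) := by positivity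
    rw [Real.rpow_one] at h2
    linarith
  have ev6 := (tendsto_rpow_atTop hθ0).eventually ev5
  obtain ⟨M₀, hM₀⟩ := eventually_atTop.1 ((ev1.and ev2).and ev6)
  refine ⟨κ * (θ / 32), by positivity, max M₀ 1, ?_⟩
  intro M hM ι s v hs hv hx
  have hM1 : 1 ≤ M := (le_max_right _ _).trans hM
  obtain ⟨⟨E1, -, E2⟩, E5⟩ := hM₀ M ((le_max_left _ _).trans hM)
  have hM0 : 0 < M := by linarith
  set X : ℝ := M ^ θ with hX
  have hX1 : 1 ≤ X := Real.one_le_rpow hM1 hθ0.le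
  have hX0 : 0 < X := by linarith
  have hXp : X ≤ M := by
    calc X ≤ M ^ (1 : ℝ) := Real.rpow_le_rpow_of_exponent_le hM1 hθ1
      _ = M := Real.rpow_one _
  have hXp2 : X ≤ M ^ 2 := hXp.trans (by nlinarith)
  obtain ⟨hk, hc⟩ := hcrit X E1
  obtain ⟨i, hi, hgap⟩ := hc ι s v hs (by
    intro q hq hqX ρ
    have h1 : (q : ℝ) ≤ X := hqX.trans (by
      calc X ^ (2 / 5 : ℝ) ≤ X ^ (1 : ℝ) := Real.rpow_le_rpow_of_exponent_le hX1 (by norm_num)
        _ = X := Real.rpow_one _)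
    have h2 := hx q hq h1 ρ
    have e : X ^ (-(2 * (r : ℝ))) = M ^ (-(2 * r * θ)) := by
      rw [hX, ← Real.rpow_mul hM0.le]
      congr 1
      ring
    rw [e]
    exact h2)
  refine ⟨i, hi, fun j q hq => ?_⟩
  by_contra hcon
  push Not at hcon
  have hff : κ * (θ / 32) * ff M ≤ κ * ff X := by
    have := (E2 X le_rfl hXp2).1
    have e : κ * (θ / 32) * ff M = κ * (θ / 32 * ff M) := by ring
    rw [e]
    exact mul_le_mul_of_nonneg_left this hκ.le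
  have hqv : |(q : ℝ) - (v i j : ℝ)| ≤ κ * ff X + 1 := by linarith
  obtain ⟨p', hp', hp'X, hdvd⟩ := hgap j (q : ℤ) (by
    push_cast
    exact hqv)
  have hpq : p' = q := by
    have : p' ∣ q := by exact_mod_cast hdvd
    exact (Nat.prime_dvd_prime_iff_eq hp' hq).1 this
  subst hpq
  have h7 := (abs_le.1 hqv).1
  have h8 := hv i hi j
  linarith

end Pool.Agent.X164.MP
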