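import Pool.Agent.X164.MP.Clb
import Pool.Agent.X164.MP.CritS
set_option autoImplicit false
set_option linter.unusedSectionVars false

/-! Record prime gaps around the least residues of pseudorandom families in boxes. -/

namespace Pool.Agent.X164.MP

open Finset Filter
open Pool.Agent.H256R2.SC (ff)

theorem prod_rel (r : ℕ) (c b : Fin r → ℝ) (t : ℝ) (ht0 : 0 ≤ t) (ht1 : t ≤ 1)
    (hb : ∀ j, 0 ≤ b j) (hc : ∀ j, 0 ≤ c j) (h : ∀ j, |c j - b j| ≤ t * b j) :
    |∏ j, c j - ∏ j, b j| ≤ (2 ^ r - 1) * t * ∏ j, b j ∧ ∏ j, c j ≤ (1 + (2 ^ r - 1) * t) * ∏ j, b j := by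
  have key : |∏ j, c j - ∏ j, b j| ≤ (2 ^ r - 1) * t * ∏ j, b j := by
    induction r with
    | zero => simp
    | succ r ih =>
      have h1 := ih (fun j => c j.succ) (fun j => b j.succ) (fun j => hb _) (fun j => hc _)
        (fun j => h _)
      have h2 : 0 ≤ ∏ j : Fin r, b j.succ := Finset.prod_nonneg fun j _ => hb _
      have h2' : 0 ≤ ∏ j : Fin r, c j.succ := Finset.prod_nonneg fun j _ => hc _
      have h3 : ∏ j : Fin r, c j.succ ≤ (1 + (2 ^ r - 1) * t) * ∏ j : Fin r, b j.succ := by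
        have := (abs_le.1 h1).2
        linarith
      rw [Fin.prod_univ_succ, Fin.prod_univ_succ (f := b)]
      set C := ∏ j : Fin r, c j.succ
      set D := ∏ j : Fin r, b j.succ
      have e : c 0 * C - b 0 * D = (c 0 - b 0) * C + b 0 * (C - D) := by ring
      have h4 := h 0
      have h20 : (1 : ℝ) ≤ 2 ^ r := one_le_pow₀ (by norm_num)
      have g1 : |c 0 - b 0| * C ≤ (t * b 0) * ((1 + (2 ^ r - 1) * t) * D) :=
        mul_le_mul h4 h3 h2' ((abs_nonneg _).trans h4)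
      have g2 : b 0 * |C - D| ≤ b 0 * ((2 ^ r - 1) * t * D) := mul_le_mul_of_nonneg_left h1 (hb 0)
      have g3 : (t * b 0) * ((1 + (2 ^ r - 1) * t) * D) ≤ (t * b 0) * ((1 + (2 ^ r - 1) * 1) * D) := by
        refine mul_le_mul_of_nonneg_left ?_ (mul_nonneg ht0 (hb 0))
        refine mul_le_mul_of_nonneg_right ?_ h2
        have : (2 ^ r - 1) * t ≤ (2 ^ r - 1) * 1 := mul_le_mul_of_nonneg_left ht1 (by linarith)
        linarith
      rw [e]
      refine (abs_add_le _ _).trans ?_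
      rw [abs_mul, abs_mul, abs_of_nonneg h2', abs_of_nonneg (hb 0)]
      calc |c 0 - b 0| * C + b 0 * |C - D| ≤
          (t * b 0) * ((1 + (2 ^ r - 1) * 1) * D) + b 0 * ((2 ^ r - 1) * t * D) := by linarith
        _ = (2 ^ (r + 1) - 1) * t * (b 0 * D) := by rw [pow_succ]; ring
  refine ⟨key, ?_⟩
  have := (abs_le.1 key).2
  linarith

set_option maxHeartbeats 4000000 in
theorem critBox (r : ℕ) (hr : 1 ≤ r) (ε : ℝ) (hε : 0 < ε) : ∃ κ : ℝ, 0 < κ ∧ ∃ p₀ : ℕ,
    ∀ (p : ℕ) [Fact p.Prime], p₀ ≤ p → ∀ (ι : Type) (s : Finset ι) (x : ι → Fin r → ZMod p)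
      (L R : Fin r → ℕ) (B : ℝ), s.Nonempty → 0 ≤ B →
      (∀ j, R j < p) → (∀ j, (p : ℝ) ^ ε ≤ (R j : ℝ) - L j) →
      (∀ h : Fin r → ZMod p, h ≠ 0 →
        ‖∑ i ∈ s, (ZMod.stdAddChar (∑ j, h j * x i j) : ℂ)‖ ≤ B) →
      B * (p : ℝ) ^ (r + ε) ≤ s.card * ∏ j, ((R j : ℝ) - L j) →
      ∃ i ∈ s, ∀ j, L j < (x i j).val ∧ (x i j).val ≤ R j ∧
        ∀ q : ℕ, q.Prime → κ * ff p < |(q : ℝ) - ((x i j).val : ℝ)| := by
  classical
  have hrR : (1 : ℝ) ≤ r := by exact_mod_cast hr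
  set δ : ℝ := min ε 1 with hδ
  have hδ0 : 0 < δ := lt_min hε one_pos
  have hδε : δ ≤ ε := min_le_left _ _
  have hδ1 : δ ≤ 1 := min_le_right _ _
  set θ : ℝ := δ / (8 * r) with hθ
  have hθ0 : 0 < θ := by positivity
  have hθr : (r : ℝ) * θ = δ / 8 := by rw [hθ]; field_simp
  have hθδ : θ ≤ δ / 8 := by nlinarith
  have hθ1 : θ ≤ 1 := by linarith
  obtain ⟨κ, hκ, M₀, hcrit⟩ := critS r hr θ hθ0 hθ1
  have ev3 : ∀ᶠ M : ℝ in atTop, 5 + Real.log M ≤ M ^ θ := by
    have h := (isLittleO_log_rpow_atTop hθ0).def (show (0 : ℝ) < 1 / 2 by norm_num)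
    filter_upwards [h, eventually_ge_atTop (1 : ℝ),
      (tendsto_rpow_atTop hθ0).eventually_ge_atTop 10] with M h1 h2 h3
    rw [Real.norm_eq_abs, abs_of_nonneg (Real.log_nonneg h2), Real.norm_eq_abs,
      abs_of_nonneg (by positivity)] at h1
    linarith
  have ev4 := Pool.Agent.W147.PS.ev_pow (δ / 8) (δ / 2) (12 * 2 ^ r) (by linarith)
  have ev5 := Pool.Agent.W147.PS.ev_pow θ δ 4 (by linarith)
  obtain ⟨M₁, hM₁⟩ := eventually_atTop.1 (ev3.and (ev4.and ev5))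
  refine ⟨κ, hκ, max (max ⌈M₀⌉₊ ⌈M₁⌉₊) 16, ?_⟩
  intro p _ hp ι s x L R B hs hB hRp hRL hx hBs
  have hpp : p.Prime := Fact.out
  have : NeZero p := ⟨hpp.ne_zero⟩
  have hp1R : (1 : ℝ) < p := by exact_mod_cast hpp.one_lt
  have hp0R : (0 : ℝ) < p := by linarith
  have hpM₀ : M₀ ≤ p := (Nat.le_ceil _).trans (by
    exact_mod_cast ((le_max_left _ _).trans (le_max_left _ _)).trans hp)
  have hpM₁ : M₁ ≤ p := (Nat.le_ceil _).trans (by
    exact_mod_cast ((le_max_right _ _).trans (le_max_left _ _)).trans hp)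
  obtain ⟨E3, E4, E5⟩ := hM₁ p hpM₁
  have hpε : (p : ℝ) ^ δ ≤ (p : ℝ) ^ ε := Real.rpow_le_rpow_of_exponent_le hp1R.le hδε
  have hpθ1 : 1 ≤ (p : ℝ) ^ θ := Real.one_le_rpow hp1R.le hθ0.le
  have hpδ0 : 0 < (p : ℝ) ^ δ := by positivity
  -- trimming
  set c : ℕ := ⌈(p : ℝ) ^ θ⌉₊ with hc
  have hc1 : (p : ℝ) ^ θ ≤ c := Nat.le_ceil _
  have hc2 : (c : ℝ) ≤ 2 * (p : ℝ) ^ θ := by
    have := Nat.ceil_lt_add_one (show (0 : ℝ) ≤ (p : ℝ) ^ θ by positivity)
    linarith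
  set L' : Fin r → ℕ := fun j => max (L j) c with hL'
  have hw : ∀ j, ((R j : ℝ) - L j) / 2 ≤ (R j : ℝ) - L' j := by
    intro j
    have h1 : ((L' j : ℕ) : ℝ) ≤ L j + c := by
      rw [hL']
      push_cast
      exact max_le (by linarith [(Nat.cast_nonneg c : (0 : ℝ) ≤ c)])
        (by linarith [(Nat.cast_nonneg (L j) : (0 : ℝ) ≤ L j)])
    have h2 := hRL j
    linarith
  have hwpos : ∀ j, (p : ℝ) ^ δ / 2 ≤ (R j : ℝ) - L' j := by
    intro j
    have h1 := hw j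
    have h2 := hRL j
    linarith
  have hLR : ∀ j, L' j ≤ R j := by
    intro j
    have h1 := hwpos j
    have : ((L' j : ℕ) : ℝ) ≤ R j := by linarith
    exact_mod_cast this
  set a : Fin r → ℝ := fun j => ((R j : ℝ) - L' j) / p with ha
  have ha0 : ∀ j, 0 < a j := fun j => div_pos (by linarith [hwpos j]) hp0R
  set α : ℝ := ∏ j, a j with hα
  have hα0 : 0 < α := Finset.prod_pos fun j _ => ha0 j
  set S : ℝ := (s.card : ℝ) with hS
  have hS0 : 0 < S := by
    rw [hS]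
    exact_mod_cast hs.card_pos
  have hSα : 0 < S * α := mul_pos hS0 hα0
  set Λ : ℝ := 5 + Real.log p with hΛ
  have hΛ0 : 0 ≤ Λ := by
    have : 0 ≤ Real.log p := Real.log_nonneg hp1R.le
    linarith
  have h2r : (1 : ℝ) ≤ 2 ^ r := one_le_pow₀ (by norm_num)
  -- the bound for `B`
  have hBα : B ≤ 2 ^ r * (S * α) * (p : ℝ) ^ (-ε) := by
    have h1 : ∏ j, ((R j : ℝ) - L j) ≤ 2 ^ r * (α * (p : ℝ) ^ r) := by
      calc ∏ j, ((R j : ℝ) - L j) ≤ ∏ j, (2 * (a j * p)) := by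
            refine Finset.prod_le_prod (fun j _ => ?_) (fun j _ => ?_)
            · have := hRL j
              have : (0 : ℝ) < (p : ℝ) ^ ε := by positivity
              linarith
            · have e : a j * p = (R j : ℝ) - L' j := by
                rw [ha]
                field_simp
              rw [e]
              linarith [hw j]
        _ = 2 ^ r * (α * (p : ℝ) ^ r) := by
            rw [Finset.prod_mul_distrib, Finset.prod_mul_distrib, Finset.prod_const,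
              Finset.prod_const, Finset.card_univ, Fintype.card_fin]
    have h2 : B * ((p : ℝ) ^ r * (p : ℝ) ^ ε) ≤ 2 ^ r * (S * α) * (p : ℝ) ^ r := by
      have e : (p : ℝ) ^ ((r : ℝ) + ε) = (p : ℝ) ^ r * (p : ℝ) ^ ε := by
        rw [Real.rpow_add hp0R, Real.rpow_natCast]
      rw [e] at hBs
      calc _ ≤ S * ∏ j, ((R j : ℝ) - L j) := hBs
        _ ≤ S * (2 ^ r * (α * (p : ℝ) ^ r)) := mul_le_mul_of_nonneg_left h1 hS0.le
        _ = _ := by ring
    have h3 : B * (p : ℝ) ^ ε ≤ 2 ^ r * (S * α) := by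
      have hpr : (0 : ℝ) < (p : ℝ) ^ r := by positivity
      have : (p : ℝ) ^ r * (B * (p : ℝ) ^ ε) ≤ (p : ℝ) ^ r * (2 ^ r * (S * α)) := by
        calc _ = B * ((p : ℝ) ^ r * (p : ℝ) ^ ε) := by ring
          _ ≤ _ := h2
          _ = _ := by ring
      exact le_of_mul_le_mul_left this hpr
    rw [Real.rpow_neg hp0R.le, ← div_eq_mul_inv, le_div_iff₀ (by positivity)]
    exact h3
  set t : ℝ := 2 * (p : ℝ) ^ θ / (p : ℝ) ^ δ with ht
  have ht0 : 0 ≤ t := by positivity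
  have ht1 : t ≤ 1 := by
    rw [ht, div_le_one hpδ0]
    linarith
  set η : ℝ := 2 ^ r * ((p : ℝ) ^ (-ε) * Λ ^ r + t) with hη
  have hη0 : 0 ≤ η := by positivity
  -- the number of points in a box of classes
  have key : ∀ q : ℕ, 1 ≤ q → (q : ℝ) ≤ (p : ℝ) ^ θ → ∀ ρ : Fin r → ℤ,
      |((s.filter (fun i => ∀ j, x i j ∈ clb p (L' j) (R j) q (ρ j))).card : ℝ) -
        S * α / (q : ℝ) ^ r| ≤ S * α * η := by
    intro q hq hqθ ρ
    have hqR : (1 : ℝ) ≤ q := by exact_mod_cast hq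
    have hqr : (1 : ℝ) ≤ (q : ℝ) ^ r := one_le_pow₀ hqR
    have hqp : q < p := by
      have h1 : (q : ℝ) < p := by
        refine hqθ.trans_lt ?_
        have h2 : (p : ℝ) ^ θ ≤ (p : ℝ) ^ (1 / 8 : ℝ) :=
          Real.rpow_le_rpow_of_exponent_le hp1R.le (by linarith)
        refine h2.trans_lt ?_
        calc (p : ℝ) ^ (1 / 8 : ℝ) < (p : ℝ) ^ (1 : ℝ) :=
              Real.rpow_lt_rpow_of_exponent_lt hp1R (by norm_num)
          _ = p := Real.rpow_one _
      exact_mod_cast h1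
    have h1 := count r s x (B := B) (Λ := Λ) hB hx
      (fun j => clb p (L' j) (R j) q (ρ j)) (fun j => clb_fc (hLR j) (hRp j) hq hqp (ρ j))
    have h2 := (prod_rel r (fun j => ((clb p (L' j) (R j) q (ρ j)).card : ℝ) / p)
      (fun j => a j / q) t ht0 ht1 (fun j => div_nonneg (ha0 j).le (by positivity))
      (fun j => by positivity) (fun j => by
        have h3 := clb_card (hLR j) (hRp j) hq hqp (ρ j)
        have e : ((clb p (L' j) (R j) q (ρ j)).card : ℝ) / p - a j / q =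
            (((clb p (L' j) (R j) q (ρ j)).card : ℝ) - ((R j : ℝ) - L' j) / q) / p := by
          rw [ha]
          field_simp
        rw [e, abs_div, abs_of_pos hp0R]
        refine (div_le_div_of_nonneg_right h3 hp0R.le).trans ?_
        have h4 := hwpos j
        have e2 : t * (a j / q) = (2 * (p : ℝ) ^ θ * ((R j : ℝ) - L' j)) / ((p : ℝ) ^ δ * q) / p := by
          rw [ht, ha]
          field_simp
        rw [e2]
        refine div_le_div_of_nonneg_right ?_ hp0R.le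
        rw [le_div_iff₀ (by positivity), one_mul]
        calc (p : ℝ) ^ δ * q ≤ (2 * ((R j : ℝ) - L' j)) * (p : ℝ) ^ θ :=
              mul_le_mul (by linarith) hqθ (by positivity) (by linarith)
          _ = _ := by ring)).1
    have e3 : ∏ j, a j / (q : ℝ) = α / (q : ℝ) ^ r := by
      rw [Finset.prod_div_distrib, Finset.prod_const, Finset.card_univ, Fintype.card_fin]
    rw [e3] at h2
    have h3 : |S * ∏ j, ((clb p (L' j) (R j) q (ρ j)).card : ℝ) / p - S * α / (q : ℝ) ^ r| ≤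
        S * α * (2 ^ r * t) := by
      rw [mul_div_assoc, ← mul_sub, abs_mul, abs_of_pos hS0]
      have h4 : (2 ^ r - 1) * t * (α / (q : ℝ) ^ r) ≤ 2 ^ r * t * α := by
        refine mul_le_mul ?_ (div_le_self hα0.le hqr) (by positivity) (by positivity)
        exact mul_le_mul_of_nonneg_right (by linarith) ht0
      calc S * _ ≤ S * (2 ^ r * t * α) := mul_le_mul_of_nonneg_left (h2.trans h4) hS0.le
        _ = _ := by ring
    have h4 := abs_sub_le ((s.filter (fun i => ∀ j, x i j ∈ clb p (L' j) (R j) q (ρ j))).card : ℝ)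
      (S * ∏ j, ((clb p (L' j) (R j) q (ρ j)).card : ℝ) / p) (S * α / (q : ℝ) ^ r)
    have h5 : B * Λ ^ r ≤ S * α * (2 ^ r * ((p : ℝ) ^ (-ε) * Λ ^ r)) := by
      calc B * Λ ^ r ≤ (2 ^ r * (S * α) * (p : ℝ) ^ (-ε)) * Λ ^ r :=
            mul_le_mul_of_nonneg_right hBα (by positivity)
        _ = _ := by ring
    have h6 : S * α * η = S * α * (2 ^ r * ((p : ℝ) ^ (-ε) * Λ ^ r)) + S * α * (2 ^ r * t) := by
      rw [hη]
      ring
    linarith
  -- the size of the error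
  have hηb : 4 * η ≤ (p : ℝ) ^ (-(δ / 4)) := by
    have g1 : (p : ℝ) ^ (-ε) ≤ (p : ℝ) ^ (-δ) :=
      Real.rpow_le_rpow_of_exponent_le hp1R.le (by linarith)
    have g2 : Λ ^ r ≤ (p : ℝ) ^ (δ / 8) := by
      calc Λ ^ r ≤ ((p : ℝ) ^ θ) ^ r := pow_le_pow_left₀ hΛ0 E3 r
        _ = (p : ℝ) ^ (δ / 8) := by
            rw [← Real.rpow_natCast, ← Real.rpow_mul hp0R.le, mul_comm θ, hθr]
    have g3 : (p : ℝ) ^ θ ≤ (p : ℝ) ^ (δ / 8) := Real.rpow_le_rpow_of_exponent_le hp1R.le hθδ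
    have g4 : t = 2 * (p : ℝ) ^ θ * (p : ℝ) ^ (-δ) := by
      rw [ht, Real.rpow_neg hp0R.le]
      rfl
    have g5 : (p : ℝ) ^ (-ε) * Λ ^ r ≤ (p : ℝ) ^ (-δ) * (p : ℝ) ^ (δ / 8) :=
      mul_le_mul g1 g2 (by positivity) (by positivity)
    have g6 : t ≤ 2 * ((p : ℝ) ^ (-δ) * (p : ℝ) ^ (δ / 8)) := by
      rw [g4]
      have := mul_le_mul_of_nonneg_left g3 (show (0 : ℝ) ≤ 2 * (p : ℝ) ^ (-δ) by positivity)
      linarith
    have g7 : η ≤ 2 ^ r * (3 * ((p : ℝ) ^ (-δ) * (p : ℝ) ^ (δ / 8))) := by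
      rw [hη]
      refine mul_le_mul_of_nonneg_left ?_ (by positivity)
      linarith
    calc 4 * η ≤ 4 * (2 ^ r * (3 * ((p : ℝ) ^ (-δ) * (p : ℝ) ^ (δ / 8)))) := by linarith
      _ = (p : ℝ) ^ (-δ) * (12 * 2 ^ r * (p : ℝ) ^ (δ / 8)) := by ring
      _ ≤ (p : ℝ) ^ (-δ) * (p : ℝ) ^ (δ / 2) := mul_le_mul_of_nonneg_left E4 (by positivity)
      _ = (p : ℝ) ^ (-(δ / 2)) := by
          rw [← Real.rpow_add hp0R]
          congr 1
          ring
      _ ≤ _ := Real.rpow_le_rpow_of_exponent_le hp1R.le (by linarith)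
  have hone : (p : ℝ) ^ (-(δ / 4)) ≤ 1 := Real.rpow_le_one_of_one_le_of_nonpos hp1R.le (by linarith)
  have hη4 : η ≤ 1 / 4 := by linarith
  -- the points in the box
  set s' := s.filter (fun i => ∀ j, L' j < (x i j).val ∧ (x i j).val ≤ R j) with hs'
  have hs'eq : s' = s.filter (fun i => ∀ j, x i j ∈
      clb p (L' j) (R j) 1 ((fun _ => 0 : Fin r → ℤ) j)) := by
    rw [hs']
    refine Finset.filter_congr fun i _ => ?_
    constructor
    · intro h j
      exact mem_clb.2 ⟨(h j).1, (h j).2, by simp⟩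
    · intro h j
      exact ⟨(mem_clb.1 (h j)).1, (mem_clb.1 (h j)).2.1⟩
  have h1 := key 1 le_rfl (by rw [Nat.cast_one]; exact hpθ1) (fun _ => 0)
  rw [← hs'eq, Nat.cast_one, one_pow, div_one] at h1
  have hs'big : S * α / 2 ≤ (s'.card : ℝ) := by
    have g1 := (abs_le.1 h1).1
    have g2 : S * α * η ≤ S * α * (1 / 4) := mul_le_mul_of_nonneg_left hη4 hSα.le
    linarith
  have hs'0 : (0 : ℝ) < s'.card := lt_of_lt_of_le (by positivity) hs'big
  have hs'ne : s'.Nonempty := Finset.card_pos.1 (by exact_mod_cast hs'0)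
  obtain ⟨i, hi, hgap⟩ := hcrit p hpM₀ ι s' (fun i j => ((x i j).val : ℤ)) hs'ne (by
    intro i hi j
    have g1 := ((Finset.mem_filter.1 hi).2 j).1
    have g2 : c < (x i j).val := (le_max_right _ _).trans_lt g1
    have g3 : (c : ℝ) < ((x i j).val : ℝ) := by exact_mod_cast g2
    push_cast
    linarith) (by
    intro q hq hqX ρ
    have hqR : (1 : ℝ) ≤ q := by exact_mod_cast hq
    have hqr : (1 : ℝ) ≤ (q : ℝ) ^ r := one_le_pow₀ hqR
    have heq : s'.filter (fun i => ∀ j, (q : ℤ) ∣ ((x i j).val : ℤ) - ρ j) =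
        s.filter (fun i => ∀ j, x i j ∈ clb p (L' j) (R j) q (ρ j)) := by
      rw [hs', Finset.filter_filter]
      refine Finset.filter_congr fun i _ => ?_
      constructor
      · rintro ⟨g1, g2⟩ j
        exact mem_clb.2 ⟨(g1 j).1, (g1 j).2, g2 j⟩
      · intro h
        exact ⟨fun j => ⟨(mem_clb.1 (h j)).1, (mem_clb.1 (h j)).2.1⟩,
          fun j => (mem_clb.1 (h j)).2.2⟩
    rw [heq]
    have h3 := key q hq hqX ρ
    have h4 : |S * α / (q : ℝ) ^ r - (s'.card : ℝ) / (q : ℝ) ^ r| ≤ S * α * η := by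
      have e : S * α / (q : ℝ) ^ r - (s'.card : ℝ) / (q : ℝ) ^ r =
          -((s'.card : ℝ) - S * α) / (q : ℝ) ^ r := by ring
      rw [e, abs_div, abs_neg, abs_of_pos (by positivity : (0 : ℝ) < (q : ℝ) ^ r)]
      exact (div_le_self (abs_nonneg _) hqr).trans h1
    have h5 := abs_sub_le
      ((s.filter (fun i => ∀ j, x i j ∈ clb p (L' j) (R j) q (ρ j))).card : ℝ)
      (S * α / (q : ℝ) ^ r) ((s'.card : ℝ) / (q : ℝ) ^ r)
    have h6 : 2 * (S * α * η) ≤ s'.card * (p : ℝ) ^ (-(2 * r * θ)) := by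
      have e : (2 * (r : ℝ) * θ) = δ / 4 := by
        rw [mul_assoc, hθr]
        ring
      rw [e]
      calc 2 * (S * α * η) = S * α / 2 * (4 * η) := by ring
        _ ≤ s'.card * (p : ℝ) ^ (-(δ / 4)) :=
            mul_le_mul hs'big hηb (by positivity) hs'0.le
    linarith)
  refine ⟨i, (Finset.mem_filter.1 hi).1, fun j => ⟨?_, ((Finset.mem_filter.1 hi).2 j).2, ?_⟩⟩
  · exact (le_max_left _ _).trans_lt ((Finset.mem_filter.1 hi).2 j).1
  · intro q hq
    have := hgap j q hq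
    push_cast at this
    exact this

end Pool.Agent.X164.MP
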