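import Pool.Agent.X164.MP.Scale
import Pool.Agent.X164.MP.Bil
set_option autoImplicit false
set_option linter.unusedSectionVars false

/-! Record prime gaps around all coordinates of solutions of diagonal congruences in boxes. -/

namespace Pool.Agent.X164.MP

open Finset Filter Polynomial
open Pool.Agent.H256R2.SC (ff)

variable {p : ℕ} [Fact p.Prime]

/-- detection of an equation by characters -/
theorem detect (y : ZMod p) : (if y = 0 then (1 : ℂ) else 0) =
    (p : ℂ)⁻¹ * ∑ t : ZMod p, (ZMod.stdAddChar (t * y) : ℂ) := by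
  have hp0 : (p : ℂ) ≠ 0 := by exact_mod_cast (Fact.out : p.Prime).ne_zero
  have h := AddChar.sum_mulShift y (ZMod.isPrimitive_stdAddChar p)
  rw [h, ZMod.card]
  by_cases hy : y = 0
  · rw [if_pos hy, if_pos hy, inv_mul_cancel₀ hp0]
  · rw [if_neg hy, if_neg hy]
    simp

theorem diag_sum (r : ℕ) (F : Fin r → (ZMod p)[X]) (c : ZMod p) (h : Fin r → ZMod p) :
    ∑ x ∈ (Finset.univ : Finset (Fin r → ZMod p)).filter (fun x => ∑ j, (F j).eval (x j) = c),
      (ZMod.stdAddChar (∑ j, h j * x j) : ℂ) =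
    (p : ℂ)⁻¹ * ∑ t : ZMod p, (ZMod.stdAddChar (-(t * c)) : ℂ) *
      ∏ j, ∑ y : ZMod p, (ZMod.stdAddChar (t * (F j).eval y + h j * y) : ℂ) := by
  classical
  rw [Finset.sum_filter]
  have h1 : ∀ x : Fin r → ZMod p, (if ∑ j, (F j).eval (x j) = c then
      (ZMod.stdAddChar (∑ j, h j * x j) : ℂ) else 0) =
      (p : ℂ)⁻¹ * ∑ t : ZMod p, (ZMod.stdAddChar (-(t * c)) : ℂ) *
        ∏ j, (ZMod.stdAddChar (t * (F j).eval (x j) + h j * x j) : ℂ) := by
    intro x
    have h2 : (if ∑ j, (F j).eval (x j) = c then (ZMod.stdAddChar (∑ j, h j * x j) : ℂ) else 0) =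
        (if ∑ j, (F j).eval (x j) - c = 0 then (1 : ℂ) else 0) *
          (ZMod.stdAddChar (∑ j, h j * x j) : ℂ) := by
      by_cases hc : ∑ j, (F j).eval (x j) = c
      · rw [if_pos hc, if_pos (sub_eq_zero.2 hc), one_mul]
      · rw [if_neg hc, if_neg (sub_ne_zero.2 hc), zero_mul]
    rw [h2, detect, mul_assoc, Finset.sum_mul]
    congr 1
    refine Finset.sum_congr rfl fun t _ => ?_
    rw [← psi_sum, ← AddChar.map_add_eq_mul, ← AddChar.map_add_eq_mul]
    congr 1
    rw [Finset.sum_add_distrib, ← Finset.mul_sum]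
    ring
  rw [Finset.sum_congr rfl fun x _ => h1 x, ← Finset.mul_sum, Finset.sum_comm]
  congr 1
  refine Finset.sum_congr rfl fun t _ => ?_
  rw [← Finset.mul_sum]
  congr 1
  rw [Finset.prod_univ_sum]
  simp only [Fintype.piFinset_univ]

theorem diag_factor (k : ℕ) (hkp : k < p) (F : (ZMod p)[X]) (h2 : 2 ≤ F.natDegree)
    (hk : F.natDegree ≤ k) (t : ZMod p) (ht : t ≠ 0) (h : ZMod p) :
    ‖∑ y : ZMod p, (ZMod.stdAddChar (t * F.eval y + h * y) : ℂ)‖ ≤ k * Real.sqrt p := by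
  have hd : (C t * F + C h * X).natDegree = F.natDegree := by
    rw [natDegree_add_eq_left_of_natDegree_lt]
    · exact natDegree_C_mul ht
    · rw [natDegree_C_mul ht]
      exact lt_of_le_of_lt ((natDegree_C_mul_le _ _).trans natDegree_X_le) (by omega)
  have hnd : ¬ p ∣ (C t * F + C h * X).natDegree := by
    rw [hd]
    intro hdv
    have := Nat.le_of_dvd (by omega) hdv
    omega
  have hw := Pool.Agent.Y951.WP.weil_le p (C t * F + C h * X) hnd (ZMod.isPrimitive_stdAddChar p)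
  have he : ∀ y : ZMod p, (C t * F + C h * X).eval y = t * F.eval y + h * y := by
    intro y
    simp
  simp only [he] at hw
  refine hw.trans (mul_le_mul_of_nonneg_right ?_ (Real.sqrt_nonneg _))
  rw [hd]
  exact_mod_cast (by omega : F.natDegree - 1 ≤ k)

theorem diag_terms (r k : ℕ) (hkp : k < p) (F : Fin r → (ZMod p)[X])
    (h2 : ∀ j, 2 ≤ (F j).natDegree) (hk : ∀ j, (F j).natDegree ≤ k) (c : ZMod p)
    (h : Fin r → ZMod p) :
    ‖(p : ℂ)⁻¹ * ∑ t ∈ (Finset.univ : Finset (ZMod p)).erase 0, (ZMod.stdAddChar (-(t * c)) : ℂ) *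
      ∏ j, ∑ y : ZMod p, (ZMod.stdAddChar (t * (F j).eval y + h j * y) : ℂ)‖ ≤
      (k * Real.sqrt p) ^ r := by
  classical
  have hpp : p.Prime := Fact.out
  have hp0 : (0 : ℝ) < p := by exact_mod_cast hpp.pos
  rw [norm_mul, norm_inv, Complex.norm_natCast, inv_mul_le_iff₀ hp0]
  refine (norm_sum_le _ _).trans ?_
  have h1 : ∀ t ∈ (Finset.univ : Finset (ZMod p)).erase 0, ‖(ZMod.stdAddChar (-(t * c)) : ℂ) *
      ∏ j, ∑ y : ZMod p, (ZMod.stdAddChar (t * (F j).eval y + h j * y) : ℂ)‖ ≤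
      (k * Real.sqrt p) ^ r := by
    intro t ht
    rw [norm_mul, norm_psi, one_mul, norm_prod]
    calc ∏ j, ‖∑ y : ZMod p, (ZMod.stdAddChar (t * (F j).eval y + h j * y) : ℂ)‖ ≤
        ∏ _j : Fin r, (k * Real.sqrt p) :=
          Finset.prod_le_prod (fun j _ => norm_nonneg _) fun j _ =>
            diag_factor k hkp (F j) (h2 j) (hk j) t (Finset.ne_of_mem_erase ht) (h j)
      _ = (k * Real.sqrt p) ^ r := by rw [Finset.prod_const, Finset.card_univ, Fintype.card_fin]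
  refine (Finset.sum_le_sum h1).trans ?_
  rw [Finset.sum_const, nsmul_eq_mul]
  refine mul_le_mul_of_nonneg_right ?_ (by positivity)
  have h3 : ((Finset.univ : Finset (ZMod p)).erase 0).card ≤ p := by
    refine (Finset.card_le_card (Finset.erase_subset _ _)).trans ?_
    rw [Finset.card_univ, ZMod.card]
  exact_mod_cast h3

theorem diag_bound (r k : ℕ) (hkp : k < p) (F : Fin r → (ZMod p)[X])
    (h2 : ∀ j, 2 ≤ (F j).natDegree) (hk : ∀ j, (F j).natDegree ≤ k) (c : ZMod p)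
    (h : Fin r → ZMod p) (hh : h ≠ 0) :
    ‖∑ x ∈ (Finset.univ : Finset (Fin r → ZMod p)).filter (fun x => ∑ j, (F j).eval (x j) = c),
      (ZMod.stdAddChar (∑ j, h j * x j) : ℂ)‖ ≤ (k * Real.sqrt p) ^ r := by
  classical
  rw [diag_sum, ← Finset.sum_erase_add _ _ (Finset.mem_univ (0 : ZMod p))]
  obtain ⟨i, hi⟩ : ∃ i, h i ≠ 0 := by
    by_contra hcon
    push Not at hcon
    exact hh (funext hcon)
  have h0 : ∏ j, ∑ y : ZMod p, (ZMod.stdAddChar (0 * (F j).eval y + h j * y) : ℂ) = 0 := by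
    refine Finset.prod_eq_zero (Finset.mem_univ i) ?_
    have := psi_sum' (p := p) (h i) hi
    rw [← this]
    exact Finset.sum_congr rfl fun y _ => by rw [zero_mul, zero_add]
  rw [h0, mul_zero, add_zero]
  exact diag_terms r k hkp F h2 hk c h

theorem diag_card (r k : ℕ) (hr : 1 ≤ r) (hkp : k < p) (F : Fin r → (ZMod p)[X])
    (h2 : ∀ j, 2 ≤ (F j).natDegree) (hk : ∀ j, (F j).natDegree ≤ k) (c : ZMod p) :
    (p : ℝ) ^ (r - 1) - (k * Real.sqrt p) ^ r ≤
      (((Finset.univ : Finset (Fin r → ZMod p)).filter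
        (fun x => ∑ j, (F j).eval (x j) = c)).card : ℝ) := by
  classical
  have hpp : p.Prime := Fact.out
  have hp0 : (p : ℂ) ≠ 0 := by exact_mod_cast hpp.ne_zero
  have h1 := diag_sum r F c (fun _ => 0)
  have h3 : ∑ x ∈ (Finset.univ : Finset (Fin r → ZMod p)).filter (fun x => ∑ j, (F j).eval (x j) = c),
      (ZMod.stdAddChar (∑ j, (0 : ZMod p) * x j) : ℂ) =
      ((((Finset.univ : Finset (Fin r → ZMod p)).filter
        (fun x => ∑ j, (F j).eval (x j) = c)).card : ℝ) : ℂ) := by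
    have : ∀ x : Fin r → ZMod p, (ZMod.stdAddChar (∑ j, (0 : ZMod p) * x j) : ℂ) = 1 := by
      intro x
      simp
    simp only [this]
    rw [Finset.sum_const, nsmul_eq_mul, mul_one]
    norm_cast
  rw [h3, ← Finset.sum_erase_add _ _ (Finset.mem_univ (0 : ZMod p)), mul_add] at h1
  have h0 : (p : ℂ)⁻¹ * ((ZMod.stdAddChar (-((0 : ZMod p) * c)) : ℂ) *
      ∏ j, ∑ y : ZMod p, (ZMod.stdAddChar (0 * (F j).eval y + 0 * y) : ℂ)) =
      (((p : ℝ) ^ (r - 1) : ℝ) : ℂ) := by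
    have : ∀ j : Fin r, ∑ y : ZMod p, (ZMod.stdAddChar (0 * (F j).eval y + 0 * y) : ℂ) = p := by
      intro j
      simp [ZMod.card]
    simp only [this]
    rw [Finset.prod_const, Finset.card_univ, Fintype.card_fin, zero_mul, neg_zero,
      AddChar.map_zero_eq_one, one_mul]
    obtain ⟨m, rfl⟩ : ∃ m, r = m + 1 := ⟨r - 1, by omega⟩
    rw [pow_succ, Nat.add_sub_cancel]
    push_cast
    field_simp
  rw [h0] at h1
  have h4 := diag_terms r k hkp F h2 hk c (fun _ => 0)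
  set E : ℂ := (p : ℂ)⁻¹ * ∑ t ∈ (Finset.univ : Finset (ZMod p)).erase 0,
    (ZMod.stdAddChar (-(t * c)) : ℂ) *
      ∏ j, ∑ y : ZMod p, (ZMod.stdAddChar (t * (F j).eval y + (fun _ => (0 : ZMod p)) j * y) : ℂ)
    with hE
  have h5 : (((((Finset.univ : Finset (Fin r → ZMod p)).filter
        (fun x => ∑ j, (F j).eval (x j) = c)).card : ℝ) - (p : ℝ) ^ (r - 1) : ℝ) : ℂ) = E := by
    push_cast at h1 ⊢
    rw [h1]
    ring
  have h6 : |((((Finset.univ : Finset (Fin r → ZMod p)).filter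
        (fun x => ∑ j, (F j).eval (x j) = c)).card : ℝ) - (p : ℝ) ^ (r - 1) : ℝ)| ≤
      (k * Real.sqrt p) ^ r := by
    rw [← Real.norm_eq_abs, ← Complex.norm_real, h5]
    exact h4
  have := (abs_le.1 h6).1
  linarith

end Pool.Agent.X164.MP
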