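import Pool.Agent.X164.MP.Diag
set_option autoImplicit false

/-! Record prime gaps around all coordinates of solutions of diagonal congruences in boxes. -/

namespace Pool.Agent.X164.MP

open Finset Filter Polynomial
open Pool.Agent.H256R2.SC (ff)

theorem diag_main (r k : ℕ) (hr : 3 ≤ r) (ε : ℝ) (hε : 0 < ε) : ∃ κ : ℝ, 0 < κ ∧ ∃ p₀ : ℕ,
    ∀ (p : ℕ) [Fact p.Prime], p₀ ≤ p → ∀ F : Fin r → (ZMod p)[X],
      (∀ j, 2 ≤ (F j).natDegree) → (∀ j, (F j).natDegree ≤ k) → ∀ (c : ZMod p) (L R : Fin r → ℕ),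
      (∀ j, R j < p) → (∀ j, (p : ℝ) ^ ε ≤ (R j : ℝ) - L j) →
      (p : ℝ) ^ ((r : ℝ) / 2 + 1 + ε) ≤ ∏ j, ((R j : ℝ) - L j) →
      ∃ x : Fin r → ℕ, (∀ j, L j < x j ∧ x j ≤ R j) ∧ ∑ j, (F j).eval (x j : ZMod p) = c ∧
        ∀ j, ∀ q : ℕ, q.Prime → κ * ff p < |(q : ℝ) - x j| := by
  classical
  obtain ⟨κ, hκ, p₀, hcrit⟩ := critBox r (by omega) (ε / 2) (by positivity)
  obtain ⟨M₁, hM₁⟩ := eventually_atTop.1
    ((tendsto_rpow_atTop (show 0 < ε / 2 by positivity)).eventually_ge_atTop (2 * (k : ℝ) ^ r))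
  obtain ⟨M₂, hM₂⟩ := eventually_atTop.1
    ((tendsto_rpow_atTop (show (0 : ℝ) < 1 / 2 by norm_num)).eventually_ge_atTop (2 * (k : ℝ) ^ r))
  refine ⟨κ, hκ, max (max p₀ (k + 1)) (max ⌈M₁⌉₊ ⌈M₂⌉₊), ?_⟩
  intro p hfp hp F h2 hk c L R hR hlen hvol
  have hpp : p.Prime := Fact.out
  have : NeZero p := ⟨hpp.ne_zero⟩
  have hp1R : (1 : ℝ) < p := by exact_mod_cast hpp.one_lt
  have hp0R : (0 : ℝ) < p := by linarith
  have hkp : k < p := by
    have := ((le_max_right _ _).trans (le_max_left _ _)).trans hp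
    omega
  have hpM1 : M₁ ≤ p := (Nat.le_ceil _).trans (by
    exact_mod_cast ((le_max_left _ _).trans (le_max_right _ _)).trans hp)
  have hpM2 : M₂ ≤ p := (Nat.le_ceil _).trans (by
    exact_mod_cast ((le_max_right _ _).trans (le_max_right _ _)).trans hp)
  have g1 := hM₁ p hpM1
  have g2 := hM₂ p hpM2
  set s : Finset (Fin r → ZMod p) := (Finset.univ : Finset (Fin r → ZMod p)).filter
    (fun x => ∑ j, (F j).eval (x j) = c) with hs
  have hsq : (k * Real.sqrt p) ^ r = (k : ℝ) ^ r * (p : ℝ) ^ ((r : ℝ) / 2) := by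
    rw [mul_pow, Real.sqrt_eq_rpow, ← Real.rpow_natCast ((p : ℝ) ^ (1 / 2 : ℝ)) r,
      ← Real.rpow_mul hp0R.le]
    congr 2
    ring
  have hr1 : (p : ℝ) ^ (r - 1) = (p : ℝ) ^ ((r : ℝ) - 1) := by
    rw [← Real.rpow_natCast]
    congr 1
    rw [Nat.cast_sub (by omega), Nat.cast_one]
  have hrR : (3 : ℝ) ≤ r := by exact_mod_cast hr
  have hcard : (p : ℝ) ^ ((r : ℝ) - 1) / 2 ≤ (s.card : ℝ) := by
    have h1 := diag_card (p := p) r k (by omega) hkp F h2 hk c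
    rw [hr1, hsq] at h1
    have h3 : 2 * (k : ℝ) ^ r * (p : ℝ) ^ ((r : ℝ) / 2) ≤ (p : ℝ) ^ ((r : ℝ) - 1) := by
      calc 2 * (k : ℝ) ^ r * (p : ℝ) ^ ((r : ℝ) / 2) ≤
          (p : ℝ) ^ (1 / 2 : ℝ) * (p : ℝ) ^ ((r : ℝ) / 2) :=
            mul_le_mul_of_nonneg_right g2 (by positivity)
        _ = (p : ℝ) ^ (1 / 2 + (r : ℝ) / 2) := by rw [← Real.rpow_add hp0R]
        _ ≤ (p : ℝ) ^ ((r : ℝ) - 1) :=
            Real.rpow_le_rpow_of_exponent_le hp1R.le (by linarith)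
    linarith
  have hspos : (0 : ℝ) < (s.card : ℝ) := lt_of_lt_of_le (by positivity) hcard
  obtain ⟨x, hx, hgap⟩ := hcrit p (((le_max_left _ _).trans (le_max_left _ _)).trans hp)
    (Fin r → ZMod p) s (fun x j => x j) L R ((k * Real.sqrt p) ^ r)
    (Finset.card_pos.1 (by exact_mod_cast hspos)) (by positivity) hR
    (fun j => (Real.rpow_le_rpow_of_exponent_le hp1R.le (by linarith)).trans (hlen j))
    (fun h hh => diag_bound r k hkp F h2 hk c h hh)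
    (by
      rw [hsq]
      calc (k : ℝ) ^ r * (p : ℝ) ^ ((r : ℝ) / 2) * (p : ℝ) ^ ((r : ℝ) + ε / 2) =
          (k : ℝ) ^ r * (p : ℝ) ^ ((r : ℝ) / 2 + ((r : ℝ) + ε / 2)) := by
            rw [mul_assoc, ← Real.rpow_add hp0R]
        _ ≤ (p : ℝ) ^ (ε / 2) / 2 * (p : ℝ) ^ ((r : ℝ) / 2 + ((r : ℝ) + ε / 2)) :=
            mul_le_mul_of_nonneg_right (by linarith) (by positivity)
        _ = (p : ℝ) ^ ((r : ℝ) - 1) / 2 * (p : ℝ) ^ ((r : ℝ) / 2 + 1 + ε) := by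
            rw [div_mul_eq_mul_div, ← Real.rpow_add hp0R, div_mul_eq_mul_div,
              ← Real.rpow_add hp0R]
            congr 2
            ring
        _ ≤ (s.card : ℝ) * ∏ j, ((R j : ℝ) - L j) :=
            mul_le_mul hcard hvol (by positivity) (by positivity))
  rw [hs, Finset.mem_filter] at hx
  refine ⟨fun j => (x j).val, fun j => ⟨(hgap j).1, (hgap j).2.1⟩, ?_, fun j => (hgap j).2.2⟩
  simp only [ZMod.natCast_zmod_val]
  exact hx.2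

end Pool.Agent.X164.MP
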