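import Pool.Agent.X164.MP.Scale
import Pool.Agent.X164.MP.Bil
import Pool.Agent.Y951.MW.Crt
set_option autoImplicit false
set_option linter.unusedSectionVars false

/-! Record prime gaps around a number and its discrete exponential. -/

namespace Pool.Agent.X164.MP

open Finset Filter
open Pool.Agent.Y933.KD (e)
open Pool.Agent.H256R2.SC (ff)

variable {p : ℕ} [Fact p.Prime]

section
variable (M : ℕ) [NeZero M] (γ : ZMod p) (hM : orderOf γ = M) (a : ZMod M)

theorem norm_psiM (M : ℕ) [NeZero M] (x : ZMod M) : ‖(ZMod.stdAddChar x : ℂ)‖ = 1 := by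
  rw [ZMod.stdAddChar_apply]
  exact Circle.norm_coe _

/-- the Gauss sum as a sum over exponents -/
noncomputable def TT (h : ZMod p) : ℂ :=
  ∑ r : ZMod M, (ZMod.stdAddChar (h * γ ^ r.val) : ℂ) * (ZMod.stdAddChar (a * r) : ℂ)

include hM in
theorem pow_val_add_one (r : ZMod M) : γ ^ (r + 1).val = γ ^ r.val * γ := by
  rw [← pow_succ, ← pow_mod_orderOf γ (r.val + 1), hM, ZMod.val_add]
  have : (r.val + (1 : ZMod M).val) % M = (r.val + 1) % M := by
    rw [ZMod.val_one_eq_one_mod, Nat.add_mod_mod]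
  rw [this]

include hM in
theorem TT_shift (h : ZMod p) : TT M γ a (h * γ) = (ZMod.stdAddChar (-a) : ℂ) * TT M γ a h := by
  unfold TT
  rw [Finset.mul_sum, ← Equiv.sum_comp (Equiv.addRight (1 : ZMod M)) (fun r : ZMod M =>
    (ZMod.stdAddChar (-a) : ℂ) * ((ZMod.stdAddChar (h * γ ^ r.val) : ℂ) *
      (ZMod.stdAddChar (a * r) : ℂ)))]
  refine Finset.sum_congr rfl fun r _ => ?_
  simp only [Equiv.coe_addRight]
  rw [pow_val_add_one M γ hM r, mul_left_comm, ← AddChar.map_add_eq_mul]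
  congr 2
  · ring
  · ring

include hM in
theorem TT_norm (h : ZMod p) (k : ℕ) : ‖TT M γ a (h * γ ^ k)‖ = ‖TT M γ a h‖ := by
  induction k with
  | zero => rw [pow_zero, mul_one]
  | succ k ih => rw [pow_succ, ← mul_assoc, TT_shift M γ hM a, norm_mul, norm_psiM, one_mul, ih]

include hM in
theorem TT_inj (r s : ZMod M) (h : γ ^ r.val = γ ^ s.val) : r = s := by
  have hr : r.val < orderOf γ := by rw [hM]; exact ZMod.val_lt r
  have hs : s.val < orderOf γ := by rw [hM]; exact ZMod.val_lt s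
  exact ZMod.val_injective M (pow_injOn_Iio_orderOf hr hs h)

include hM in
theorem TT_sq : ∑ h : ZMod p, ‖TT M γ a h‖ ^ 2 = p * M := by
  classical
  have h1 : ((∑ h : ZMod p, ‖TT M γ a h‖ ^ 2 : ℝ) : ℂ) = ((p * M : ℝ) : ℂ) := by
    push_cast
    have h2 : ∀ h : ZMod p, ((‖TT M γ a h‖ : ℝ) : ℂ) ^ 2 = ∑ r : ZMod M, ∑ s : ZMod M,
        ((ZMod.stdAddChar (a * r) : ℂ) * (ZMod.stdAddChar (-(a * s)) : ℂ)) *
          (ZMod.stdAddChar (h * (γ ^ r.val - γ ^ s.val)) : ℂ) := by
      intro h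
      rw [← Complex.mul_conj', TT, map_sum, Finset.sum_mul_sum]
      refine Finset.sum_congr rfl fun r _ => Finset.sum_congr rfl fun s _ => ?_
      have c2 : (starRingEnd ℂ) (ZMod.stdAddChar (a * s) : ℂ) = ZMod.stdAddChar (-(a * s)) := by
        rw [AddChar.map_neg_eq_conj]
      rw [RingHom.map_mul, conj_psi, c2, mul_sub, sub_eq_add_neg, AddChar.map_add_eq_mul]
      ring
    simp only [h2]
    rw [Finset.sum_comm]
    have h3 : ∀ r : ZMod M, ∑ h : ZMod p, ∑ s : ZMod M,
        ((ZMod.stdAddChar (a * r) : ℂ) * (ZMod.stdAddChar (-(a * s)) : ℂ)) *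
          (ZMod.stdAddChar (h * (γ ^ r.val - γ ^ s.val)) : ℂ) = p := by
      intro r
      rw [Finset.sum_comm, Finset.sum_eq_single r]
      · rw [← Finset.mul_sum, ← AddChar.map_add_eq_mul, add_neg_cancel, AddChar.map_zero_eq_one,
          one_mul, sub_self]
        simp [ZMod.card]
      · intro s _ hs
        have hne : γ ^ r.val - γ ^ s.val ≠ 0 := by
          intro h4
          exact hs (TT_inj M γ hM s r (sub_eq_zero.1 h4).symm)
        have h5 := AddChar.sum_mulShift (γ ^ r.val - γ ^ s.val) (ZMod.isPrimitive_stdAddChar p)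
        rw [if_neg hne, Nat.cast_zero] at h5
        rw [← Finset.mul_sum, h5, mul_zero]
      · intro h
        exact absurd (Finset.mem_univ r) h
    rw [Finset.sum_congr rfl fun r _ => h3 r, Finset.sum_const, Finset.card_univ, ZMod.card,
      nsmul_eq_mul]
    ring
  exact_mod_cast h1

include hM in
theorem TT_le (h : ZMod p) (hh : h ≠ 0) : ‖TT M γ a h‖ ≤ Real.sqrt p := by
  classical
  have hM0 : (0 : ℝ) < M := by exact_mod_cast Nat.pos_of_ne_zero (NeZero.ne M)
  refine Real.le_sqrt_of_sq_le ?_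
  have h1 : (M : ℝ) * ‖TT M γ a h‖ ^ 2 ≤ ∑ h : ZMod p, ‖TT M γ a h‖ ^ 2 := by
    have hinj : Set.InjOn (fun k : ℕ => h * γ ^ k) (range M : Finset ℕ) := by
      intro k hk l hl hkl
      have hk' := Finset.mem_range.1 (Finset.mem_coe.1 hk)
      have hl' := Finset.mem_range.1 (Finset.mem_coe.1 hl)
      have h2 : γ ^ k = γ ^ l := mul_left_cancel₀ hh hkl
      exact pow_injOn_Iio_orderOf (by rw [Set.mem_Iio, hM]; exact hk')
        (by rw [Set.mem_Iio, hM]; exact hl') h2
    calc (M : ℝ) * ‖TT M γ a h‖ ^ 2 = ∑ k ∈ range M, ‖TT M γ a (h * γ ^ k)‖ ^ 2 := by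
          rw [Finset.sum_congr rfl fun k _ => by rw [TT_norm M γ hM a h k], Finset.sum_const,
            Finset.card_range, nsmul_eq_mul]
      _ = ∑ x ∈ (range M).image (fun k : ℕ => h * γ ^ k), ‖TT M γ a x‖ ^ 2 := by
          rw [Finset.sum_image hinj]
      _ ≤ _ := Finset.sum_le_sum_of_subset_of_nonneg (Finset.subset_univ _) fun _ _ _ => by
          positivity
  rw [TT_sq M γ hM a] at h1
  nlinarith

include hM in
theorem dlog_sum (h : ZMod p) (hh : h ≠ 0) (η : ℝ) :
    ‖∑ n ∈ Ioc 0 M, (ZMod.stdAddChar (h * γ ^ n) : ℂ) * e (n * η)‖ ≤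
      Real.sqrt p * (3 + Real.log M) := by
  have hM0 : (0 : ℝ) < M := by exact_mod_cast Nat.pos_of_ne_zero (NeZero.ne M)
  have h1 := Pool.Agent.Y951.MW.incompleteM (M := M)
    (g := fun r => (ZMod.stdAddChar (h * γ ^ r.val) : ℂ)) (Γ := Real.sqrt p)
    (Real.sqrt_nonneg _) (fun a => TT_le M γ hM a h hh) η (u := 0) (v := M) (N := M) le_rfl
  have h2 : ∀ n : ℕ, γ ^ ((n : ZMod M).val) = γ ^ n := by
    intro n
    rw [ZMod.val_natCast, ← hM, pow_mod_orderOf]
  simp only [h2] at h1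
  refine h1.trans (le_of_eq ?_)
  field_simp
  ring

end

end Pool.Agent.X164.MP
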