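import Pool.Agent.X164.MP.Dlog
set_option autoImplicit false
set_option linter.unusedSectionVars false

/-! Record prime gaps around a number and its discrete exponential. -/

namespace Pool.Agent.X164.MP

open Finset Filter
open Pool.Agent.Y933.KD (e)
open Pool.Agent.H256R2.SC (ff)

theorem log_ev (δ : ℝ) (hδ : 0 < δ) : ∃ M₀ : ℝ, ∀ x : ℝ, M₀ ≤ x →
    2 * (3 + Real.log x) ≤ x ^ δ := by
  have h1 := (isLittleO_log_rpow_atTop hδ).bound (show (0 : ℝ) < 1 / 4 by norm_num)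
  have h2 := (tendsto_rpow_atTop hδ).eventually_ge_atTop 12
  have h3 := h1.and (h2.and (eventually_ge_atTop (1 : ℝ)))
  obtain ⟨M₀, hM⟩ := eventually_atTop.1 h3
  refine ⟨M₀, fun x hx => ?_⟩
  obtain ⟨a1, a2, a3⟩ := hM x hx
  rw [Real.norm_eq_abs, Real.norm_eq_abs, abs_of_nonneg (Real.log_nonneg a3),
    abs_of_nonneg (by positivity)] at a1
  linarith

variable {p : ℕ} [Fact p.Prime]

theorem psi_lin (c : ZMod p) (n : ℕ) :
    (ZMod.stdAddChar (c * (n : ZMod p)) : ℂ) = e (n * ((c.val : ℝ) / p)) := by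
  have h1 : c * (n : ZMod p) = (((c.val * n : ℤ)) : ZMod p) := by
    push_cast
    rw [ZMod.natCast_zmod_val]
  rw [h1, Pool.Agent.Y951.MW.psi_int]
  congr 1
  push_cast
  ring

theorem lin_sum (c : ZMod p) (hc : c ≠ 0) :
    ‖∑ n ∈ Ioc 0 (p - 1), (ZMod.stdAddChar (c * (n : ZMod p)) : ℂ)‖ = 1 := by
  classical
  have hpp : p.Prime := Fact.out
  have hp2 := hpp.two_le
  have h1 := psi_sum' (p := p) c hc
  rw [← Finset.sum_erase_add _ _ (Finset.mem_univ (0 : ZMod p)), mul_zero,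
    AddChar.map_zero_eq_one] at h1
  have h2 : ∑ n ∈ Ioc 0 (p - 1), (ZMod.stdAddChar (c * (n : ZMod p)) : ℂ) =
      ∑ x ∈ (Finset.univ : Finset (ZMod p)).erase 0, (ZMod.stdAddChar (c * x) : ℂ) := by
    refine Finset.sum_bij' (fun n _ => (n : ZMod p)) (fun x _ => x.val) ?_ ?_ ?_ ?_ ?_
    · intro n hn
      rw [Finset.mem_Ioc] at hn
      refine Finset.mem_erase.2 ⟨?_, Finset.mem_univ _⟩
      rw [Ne, ZMod.natCast_eq_zero_iff]
      intro h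
      have := Nat.le_of_dvd hn.1 h
      omega
    · intro x hx
      rw [Finset.mem_Ioc]
      have h3 := ZMod.val_lt x
      have h4 : x.val ≠ 0 := by
        rw [Ne, ZMod.val_eq_zero]
        exact Finset.ne_of_mem_erase hx
      omega
    · intro n hn
      rw [Finset.mem_Ioc] at hn
      exact ZMod.val_cast_of_lt (by omega)
    · intro x _
      exact ZMod.natCast_zmod_val x
    · intro n _
      rfl
  rw [h2, eq_neg_of_add_eq_zero_left h1, norm_neg, norm_one]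

theorem dlog_bound (γ : ZMod p) (hγ : orderOf γ = p - 1) (h : Fin 2 → ZMod p) (hh : h ≠ 0) :
    ‖∑ n ∈ Ioc 0 (p - 1), (ZMod.stdAddChar
      (∑ j, h j * (![(n : ZMod p), γ ^ n] : Fin 2 → ZMod p) j) : ℂ)‖ ≤
      Real.sqrt p * (3 + Real.log p) := by
  have hpp : p.Prime := Fact.out
  have hp2 := hpp.two_le
  have : NeZero (p - 1) := ⟨by omega⟩
  have hs1 : (1 : ℝ) ≤ Real.sqrt p := Real.one_le_sqrt.2 (by exact_mod_cast hpp.one_lt.le)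
  have hlog : 0 ≤ Real.log p := Real.log_nonneg (by exact_mod_cast hpp.one_lt.le)
  simp only [Fin.sum_univ_two, Matrix.cons_val_zero, Matrix.cons_val_one]
  by_cases h1 : h 1 = 0
  · have h0 : h 0 ≠ 0 := by
      intro h0
      apply hh
      funext j
      fin_cases j
      · exact h0
      · exact h1
    simp only [h1, zero_mul, add_zero]
    rw [lin_sum _ h0]
    nlinarith
  · have h2 := dlog_sum (p - 1) γ hγ (h 1) h1 (((h 0).val : ℝ) / p)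
    have h3 : ∀ n : ℕ, (ZMod.stdAddChar (h 0 * (n : ZMod p) + h 1 * γ ^ n) : ℂ) =
        (ZMod.stdAddChar (h 1 * γ ^ n) : ℂ) * e (n * (((h 0).val : ℝ) / p)) := by
      intro n
      rw [AddChar.map_add_eq_mul, psi_lin, mul_comm]
    simp only [h3]
    refine h2.trans ?_
    refine mul_le_mul_of_nonneg_left ?_ (Real.sqrt_nonneg _)
    have : Real.log ((p - 1 : ℕ) : ℝ) ≤ Real.log p :=
      Real.log_le_log (by exact_mod_cast (by omega : 0 < p - 1)) (by exact_mod_cast (Nat.sub_le p 1))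
    linarith

theorem dlog_main (ε : ℝ) (hε : 0 < ε) : ∃ κ : ℝ, 0 < κ ∧ ∃ p₀ : ℕ,
    ∀ (p : ℕ) [Fact p.Prime], p₀ ≤ p → ∀ γ : ZMod p, orderOf γ = p - 1 →
      ∀ L₁ R₁ L₂ R₂ : ℕ, L₁ ≤ R₁ → R₁ < p → L₂ ≤ R₂ → R₂ < p →
      (p : ℝ) ^ (3 / 2 + ε) ≤ ((R₁ - L₁ : ℕ) : ℝ) * ((R₂ - L₂ : ℕ) : ℝ) →
      ∃ n x : ℕ, L₁ < n ∧ n ≤ R₁ ∧ L₂ < x ∧ x ≤ R₂ ∧ γ ^ n = (x : ZMod p) ∧
        ∀ q : ℕ, q.Prime → κ * ff p < |(q : ℝ) - n| ∧ κ * ff p < |(q : ℝ) - x| := by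
  set δ : ℝ := min (ε / 2) (1 / 2) with hδ
  have hδ0 : 0 < δ := lt_min (by linarith) (by norm_num)
  have hδ1 : δ ≤ 1 / 2 := min_le_right _ _
  have hδε : δ ≤ ε / 2 := min_le_left _ _
  obtain ⟨κ, hκ, p₀, hcrit⟩ := critBox 2 (by norm_num) δ hδ0
  obtain ⟨M₁, hM₁⟩ := log_ev (ε / 2) (by positivity)
  refine ⟨κ, hκ, max p₀ (max ⌈M₁⌉₊ 2), ?_⟩
  intro p hfp hp γ hγ L₁ R₁ L₂ R₂ h1 h2 h3 h4 harea
  have hpp : p.Prime := Fact.out
  have : NeZero p := ⟨hpp.ne_zero⟩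
  have hp1R : (1 : ℝ) < p := by exact_mod_cast hpp.one_lt
  have hp0R : (0 : ℝ) < p := by linarith
  have hp2R : (2 : ℝ) ≤ p := by exact_mod_cast hpp.two_le
  have hpM : M₁ ≤ p := (Nat.le_ceil _).trans (by
    exact_mod_cast ((le_max_left _ _).trans (le_max_right _ _)).trans hp)
  set l₁ : ℝ := (R₁ : ℝ) - L₁ with hl₁
  set l₂ : ℝ := (R₂ : ℝ) - L₂ with hl₂
  have c1 : ((R₁ - L₁ : ℕ) : ℝ) = l₁ := Nat.cast_sub h1
  have c2 : ((R₂ - L₂ : ℕ) : ℝ) = l₂ := Nat.cast_sub h3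
  rw [c1, c2] at harea
  have hR₁ : (R₁ : ℝ) < p := by exact_mod_cast h2
  have hR₂ : (R₂ : ℝ) < p := by exact_mod_cast h4
  have hL₁ : (0 : ℝ) ≤ L₁ := Nat.cast_nonneg _
  have hL₂ : (0 : ℝ) ≤ L₂ := Nat.cast_nonneg _
  have b1 : l₁ ≤ p := by linarith
  have b2 : l₂ ≤ p := by linarith
  have b3 : 0 ≤ l₁ := by rw [← c1]; exact Nat.cast_nonneg _
  have b4 : 0 ≤ l₂ := by rw [← c2]; exact Nat.cast_nonneg _
  have hpow : (p : ℝ) ^ (3 / 2 + ε) = p * (p : ℝ) ^ (1 / 2 + ε) := by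
    rw [← Real.rpow_one_add' hp0R.le (by linarith)]
    congr 1
    ring
  have hhalf : (p : ℝ) ^ δ ≤ (p : ℝ) ^ (1 / 2 + ε) :=
    Real.rpow_le_rpow_of_exponent_le hp1R.le (by linarith)
  have w1 : (p : ℝ) ^ δ ≤ l₁ := by
    refine hhalf.trans ?_
    have : p * (p : ℝ) ^ (1 / 2 + ε) ≤ p * l₁ := by
      rw [← hpow]
      refine harea.trans ?_
      rw [mul_comm]
      exact mul_le_mul_of_nonneg_right b2 b3
    exact le_of_mul_le_mul_left this hp0R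
  have w2 : (p : ℝ) ^ δ ≤ l₂ := by
    refine hhalf.trans ?_
    have : p * (p : ℝ) ^ (1 / 2 + ε) ≤ p * l₂ := by
      rw [← hpow]
      exact harea.trans (mul_le_mul_of_nonneg_right b1 b4)
    exact le_of_mul_le_mul_left this hp0R
  have hlog : 0 ≤ Real.log p := Real.log_nonneg hp1R.le
  obtain ⟨n, hn, hx⟩ := hcrit p ((le_max_left _ _).trans hp) ℕ (Ioc 0 (p - 1))
    (fun n => ![(n : ZMod p), γ ^ n]) ![L₁, L₂] ![R₁, R₂]
    (Real.sqrt p * (3 + Real.log p)) ⟨1, Finset.mem_Ioc.2 ⟨by norm_num, by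
      have := hpp.two_le; omega⟩⟩ (by positivity)
    (by
      intro j
      fin_cases j
      · exact h2
      · exact h4)
    (by
      intro j
      fin_cases j
      · exact w1
      · exact w2)
    (fun h hh => dlog_bound γ hγ h hh)
    (by
      rw [Fin.prod_univ_two]
      simp only [Matrix.cons_val_zero, Matrix.cons_val_one]
      have hcard : ((Ioc 0 (p - 1)).card : ℝ) = p - 1 := by
        rw [Nat.card_Ioc, Nat.sub_zero, Nat.cast_sub hpp.one_lt.le, Nat.cast_one]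
      rw [hcard, ← hl₁, ← hl₂, Real.sqrt_eq_rpow]
      have g1 := hM₁ p hpM
      have g2 : (p : ℝ) ^ (1 / 2 : ℝ) * (3 + Real.log p) * (p : ℝ) ^ (((2 : ℕ) : ℝ) + δ) =
          (3 + Real.log p) * (p : ℝ) ^ (5 / 2 + δ) := by
        have e0 := Real.rpow_add hp0R (1 / 2) (((2 : ℕ) : ℝ) + δ)
        rw [show (5 : ℝ) / 2 + δ = 1 / 2 + (((2 : ℕ) : ℝ) + δ) by push_cast; ring, e0]
        ring
      have g3 : (p : ℝ) ^ (5 / 2 + ε) = p * (p : ℝ) ^ (3 / 2 + ε) := by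
        rw [← Real.rpow_one_add' hp0R.le (by linarith)]
        congr 1
        ring
      have g4 : (p : ℝ) ^ (ε / 2) * (p : ℝ) ^ (5 / 2 + δ) ≤ (p : ℝ) ^ (5 / 2 + ε) := by
        rw [← Real.rpow_add hp0R]
        exact Real.rpow_le_rpow_of_exponent_le hp1R.le (by linarith)
      rw [g2]
      calc (3 + Real.log p) * (p : ℝ) ^ (5 / 2 + δ) =
          (2 * (3 + Real.log p)) * (p : ℝ) ^ (5 / 2 + δ) / 2 := by ring
        _ ≤ (p : ℝ) ^ (ε / 2) * (p : ℝ) ^ (5 / 2 + δ) / 2 := by gcongr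
        _ ≤ (p : ℝ) ^ (5 / 2 + ε) / 2 := by gcongr
        _ = p / 2 * (p : ℝ) ^ (3 / 2 + ε) := by rw [g3]; ring
        _ ≤ (p - 1) * (l₁ * l₂) := mul_le_mul (by linarith) harea (by positivity) (by linarith))
  have hx0 := hx 0
  have hx1 := hx 1
  simp only [Matrix.cons_val_zero, Matrix.cons_val_one] at hx0 hx1
  have hnp : ((n : ZMod p)).val = n := by
    rw [Finset.mem_Ioc] at hn
    have := hpp.two_le
    exact ZMod.val_cast_of_lt (by omega)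
  rw [hnp] at hx0
  exact ⟨n, (γ ^ n).val, hx0.1, hx0.2.1, hx1.1, hx1.2.1, (ZMod.natCast_zmod_val _).symm,
    fun q hq => ⟨hx0.2.2 q hq, hx1.2.2 q hq⟩⟩

theorem dlog_first (ε : ℝ) (hε : 0 < ε) : ∃ C : ℝ, 0 < C ∧ ∃ G : ℕ, ∀ g : ℕ, G ≤ g →
    ∀ (p : ℕ) [Fact p.Prime], Real.exp (C * g * (Real.log (Real.log g)) ^ 2 /
        ((Real.log g) ^ 2 * Real.log (Real.log (Real.log g)))) ≤ p →
    ∀ γ : ZMod p, orderOf γ = p - 1 → ∀ L₁ R₁ L₂ R₂ : ℕ, L₁ ≤ R₁ → R₁ < p → L₂ ≤ R₂ → R₂ < p →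
      (p : ℝ) ^ (3 / 2 + ε) ≤ ((R₁ - L₁ : ℕ) : ℝ) * ((R₂ - L₂ : ℕ) : ℝ) →
      ∃ n x : ℕ, L₁ < n ∧ n ≤ R₁ ∧ L₂ < x ∧ x ≤ R₂ ∧ γ ^ n = (x : ZMod p) ∧
        ∀ q : ℕ, q.Prime → (g : ℝ) < |(q : ℝ) - n| ∧ (g : ℝ) < |(q : ℝ) - x| := by
  obtain ⟨κ, hκ, p₀, h⟩ := dlog_main ε hε
  obtain ⟨C, hC, G, hG⟩ := first_scale κ hκ p₀
  refine ⟨C, hC, G, fun g hg p hp hpZ γ hγ L₁ R₁ L₂ R₂ h1 h2 h3 h4 h5 => ?_⟩
  obtain ⟨c1, c2⟩ := hG g hg p hpZ
  obtain ⟨n, x, e1, e2, e3, e4, e5, e6⟩ := h p (by exact_mod_cast c1) γ hγ L₁ R₁ L₂ R₂ h1 h2 h3 h4 h5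
  exact ⟨n, x, e1, e2, e3, e4, e5, fun q hq => ⟨lt_of_le_of_lt c2 (e6 q hq).1,
    lt_of_le_of_lt c2 (e6 q hq).2⟩⟩

end Pool.Agent.X164.MP
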