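import Pool.Agent.Y951.MW.Comp
set_option autoImplicit false
set_option linter.unusedSectionVars false

/-! Fourier analysis modulo a prime: counting points of a family in products of sets. -/

namespace Pool.Agent.X164.MP

open Finset
open Pool.Agent.Y933.KD

variable {p : ℕ} [Fact p.Prime]

theorem norm_psi (x : ZMod p) : ‖(ZMod.stdAddChar x : ℂ)‖ = 1 := by
  rw [ZMod.stdAddChar_apply]
  exact Circle.norm_coe _

theorem conj_psi (x : ZMod p) :
    (starRingEnd ℂ) (ZMod.stdAddChar x : ℂ) = ZMod.stdAddChar (-x) := by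
  rw [AddChar.map_neg_eq_conj]

theorem psi_sum {ι : Type*} (t : Finset ι) (f : ι → ZMod p) :
    (ZMod.stdAddChar (∑ j ∈ t, f j) : ℂ) = ∏ j ∈ t, (ZMod.stdAddChar (f j) : ℂ) := by
  classical
  induction t using Finset.induction_on with
  | empty => simp
  | insert a t ha ih => rw [Finset.sum_insert ha, Finset.prod_insert ha, AddChar.map_add_eq_mul, ih]

/-- Fourier coefficient of a set -/
noncomputable def fc (S : Finset (ZMod p)) (h : ZMod p) : ℂ :=
  ∑ y ∈ S, (ZMod.stdAddChar (-(h * y)) : ℂ)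

theorem inversion (S : Finset (ZMod p)) (x : ZMod p) :
    (if x ∈ S then (1 : ℂ) else 0) =
      (p : ℂ)⁻¹ * ∑ h : ZMod p, fc S h * (ZMod.stdAddChar (h * x) : ℂ) := by
  have hp0 : (p : ℂ) ≠ 0 := by exact_mod_cast (Fact.out : p.Prime).ne_zero
  have h1 : ∑ h : ZMod p, fc S h * (ZMod.stdAddChar (h * x) : ℂ) =
      ∑ y ∈ S, ∑ h : ZMod p, (ZMod.stdAddChar (h * (x - y)) : ℂ) := by
    rw [Finset.sum_comm]
    refine Finset.sum_congr rfl fun h _ => ?_
    rw [fc, Finset.sum_mul]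
    refine Finset.sum_congr rfl fun y _ => ?_
    rw [← AddChar.map_add_eq_mul]
    congr 1
    ring
  rw [h1]
  have h2 : ∀ y : ZMod p, ∑ h : ZMod p, (ZMod.stdAddChar (h * (x - y)) : ℂ) =
      if x - y = 0 then (p : ℂ) else 0 := by
    intro y
    have := AddChar.sum_mulShift (x - y) (ZMod.isPrimitive_stdAddChar p)
    rw [ZMod.card] at this
    exact_mod_cast this
  simp only [h2, sub_eq_zero]
  by_cases hx : x ∈ S
  · rw [if_pos hx, Finset.sum_eq_single x]
    · rw [if_pos rfl, inv_mul_cancel₀ hp0]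
    · intro b _ hb
      rw [if_neg (Ne.symm hb)]
    · intro h
      exact absurd hx h
  · rw [if_neg hx, Finset.sum_eq_zero, mul_zero]
    intro y hy
    rw [if_neg]
    rintro rfl
    exact hx hy

theorem fc_zero (S : Finset (ZMod p)) : fc S 0 = S.card := by
  unfold fc
  simp

/-- **Counting.** -/
theorem count {ι : Type*} (r : ℕ) (s : Finset ι) (x : ι → Fin r → ZMod p) {B Λ : ℝ} (hB : 0 ≤ B)
    (hx : ∀ h : Fin r → ZMod p, h ≠ 0 →
      ‖∑ i ∈ s, (ZMod.stdAddChar (∑ j, h j * x i j) : ℂ)‖ ≤ B)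
    (S : Fin r → Finset (ZMod p)) (hS : ∀ j, ∑ h : ZMod p, ‖fc (S j) h‖ ≤ p * Λ) :
    |((s.filter (fun i => ∀ j, x i j ∈ S j)).card : ℝ) - s.card * ∏ j, ((S j).card : ℝ) / p| ≤
      B * Λ ^ r := by
  classical
  have hp0 : (p : ℂ) ≠ 0 := by exact_mod_cast (Fact.out : p.Prime).ne_zero
  have hpR : (0 : ℝ) < p := by exact_mod_cast (Fact.out : p.Prime).pos
  have e1 : (((s.filter (fun i => ∀ j, x i j ∈ S j)).card : ℕ) : ℂ) =
      ((p : ℂ)⁻¹) ^ r * ∑ h : Fin r → ZMod p, (∏ j, fc (S j) (h j)) *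
        ∑ i ∈ s, (ZMod.stdAddChar (∑ j, h j * x i j) : ℂ) := by
    have g1 : (((s.filter (fun i => ∀ j, x i j ∈ S j)).card : ℕ) : ℂ) =
        ∑ i ∈ s, ∏ j, (if x i j ∈ S j then (1 : ℂ) else 0) := by
      rw [Finset.card_filter]
      push_cast
      refine Finset.sum_congr rfl fun i _ => ?_
      by_cases h : ∀ j, x i j ∈ S j
      · rw [if_pos h, Finset.prod_eq_one fun j _ => if_pos (h j)]
      · rw [if_neg h]
        push Not at h
        obtain ⟨j, hj⟩ := h
        rw [Finset.prod_eq_zero (Finset.mem_univ j) (if_neg hj)]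
    rw [g1, Finset.mul_sum]
    have g2 : ∀ i, ∏ j, (if x i j ∈ S j then (1 : ℂ) else 0) =
        ∑ h : Fin r → ZMod p, ((p : ℂ)⁻¹) ^ r * ((∏ j, fc (S j) (h j)) *
          (ZMod.stdAddChar (∑ j, h j * x i j) : ℂ)) := by
      intro i
      rw [Finset.prod_congr rfl fun j _ => inversion (S j) (x i j), Finset.prod_mul_distrib,
        Finset.prod_const, Finset.card_univ, Fintype.card_fin, Finset.prod_univ_sum,
        Fintype.piFinset_univ, Finset.mul_sum]
      refine Finset.sum_congr rfl fun h _ => ?_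
      rw [Finset.prod_mul_distrib, psi_sum]
    rw [Finset.sum_congr rfl fun i _ => g2 i, Finset.sum_comm]
    refine Finset.sum_congr rfl fun h _ => ?_
    rw [Finset.mul_sum, Finset.mul_sum]
  have e2 : ((p : ℂ)⁻¹) ^ r * ((∏ j : Fin r, fc (S j) 0) *
      ∑ i ∈ s, (ZMod.stdAddChar (∑ j, (0 : ZMod p) * x i j) : ℂ)) =
      ((s.card * ∏ j, ((S j).card : ℝ) / p : ℝ) : ℂ) := by
    have g1 : ∑ i ∈ s, (ZMod.stdAddChar (∑ j, (0 : ZMod p) * x i j) : ℂ) = s.card := by
      simp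
    rw [g1]
    push_cast
    simp only [fc_zero, div_eq_mul_inv, Finset.prod_mul_distrib, Finset.prod_const,
      Finset.card_univ, Fintype.card_fin]
    ring
  have e3 : (((s.filter (fun i => ∀ j, x i j ∈ S j)).card : ℕ) : ℂ) -
      ((s.card * ∏ j, ((S j).card : ℝ) / p : ℝ) : ℂ) =
      ((p : ℂ)⁻¹) ^ r * ∑ h ∈ (Finset.univ : Finset (Fin r → ZMod p)).erase 0,
        (∏ j, fc (S j) (h j)) * ∑ i ∈ s, (ZMod.stdAddChar (∑ j, h j * x i j) : ℂ) := by
    rw [e1, ← Finset.add_sum_erase _ _ (Finset.mem_univ (0 : Fin r → ZMod p)), mul_add, ← e2]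
    simp only [Pi.zero_apply]
    ring
  have e4 : |((s.filter (fun i => ∀ j, x i j ∈ S j)).card : ℝ) -
      s.card * ∏ j, ((S j).card : ℝ) / p| =
      ‖(((s.filter (fun i => ∀ j, x i j ∈ S j)).card : ℕ) : ℂ) -
      ((s.card * ∏ j, ((S j).card : ℝ) / p : ℝ) : ℂ)‖ := by
    rw [← Complex.ofReal_natCast, ← Complex.ofReal_sub, Complex.norm_real, Real.norm_eq_abs]
  rw [e4, e3, norm_mul, norm_pow, norm_inv, Complex.norm_natCast]
  have e5 : ‖∑ h ∈ (Finset.univ : Finset (Fin r → ZMod p)).erase 0,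
        (∏ j, fc (S j) (h j)) * ∑ i ∈ s, (ZMod.stdAddChar (∑ j, h j * x i j) : ℂ)‖ ≤
      B * (p * Λ) ^ r := by
    calc _ ≤ ∑ h ∈ (Finset.univ : Finset (Fin r → ZMod p)).erase 0,
          (∏ j, ‖fc (S j) (h j)‖) * B := by
          refine norm_sum_le_of_le _ fun h hh => ?_
          rw [norm_mul, norm_prod]
          exact mul_le_mul_of_nonneg_left (hx h (Finset.ne_of_mem_erase hh))
            (Finset.prod_nonneg fun j _ => norm_nonneg _)
      _ ≤ ∑ h : Fin r → ZMod p, (∏ j, ‖fc (S j) (h j)‖) * B := by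
          refine Finset.sum_le_sum_of_subset_of_nonneg (Finset.erase_subset _ _) fun h _ _ => ?_
          exact mul_nonneg (Finset.prod_nonneg fun j _ => norm_nonneg _) hB
      _ = (∏ j, ∑ h : ZMod p, ‖fc (S j) h‖) * B := by
          rw [Finset.prod_univ_sum, Fintype.piFinset_univ, Finset.sum_mul]
      _ ≤ (∏ _j : Fin r, (p * Λ)) * B := by
          refine mul_le_mul_of_nonneg_right ?_ hB
          exact Finset.prod_le_prod (fun j _ => Finset.sum_nonneg fun h _ => norm_nonneg _)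
            fun j _ => hS j
      _ = B * (p * Λ) ^ r := by
          rw [Finset.prod_const, Finset.card_univ, Fintype.card_fin, mul_comm]
  calc ((p : ℝ)⁻¹) ^ r * _ ≤ ((p : ℝ)⁻¹) ^ r * (B * (p * Λ) ^ r) :=
        mul_le_mul_of_nonneg_left e5 (by positivity)
    _ = B * ((p : ℝ)⁻¹ * (p * Λ)) ^ r := by rw [mul_pow]; ring
    _ = B * Λ ^ r := by rw [inv_mul_cancel_left₀ hpR.ne']

end Pool.Agent.X164.MP
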