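import Pool.Agent.X164.MP.Box
import Pool.Agent.H498R2.SM_T8
set_option autoImplicit false

/-! Record prime gaps at points of modular hyperbolas in boxes. -/

namespace Pool.Agent.X164.MP

open Finset Filter
open Pool.Agent.H256R2.SC (ff)

variable {p : ℕ} [Fact p.Prime]

theorem psi_sum' (c : ZMod p) (hc : c ≠ 0) :
    ∑ x : ZMod p, (ZMod.stdAddChar (c * x) : ℂ) = 0 := by
  have h := AddChar.sum_mulShift c (ZMod.isPrimitive_stdAddChar p)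
  rw [if_neg hc] at h
  rw [Nat.cast_zero] at h
  rw [← h]
  exact Finset.sum_congr rfl fun x _ => by rw [mul_comm]

theorem sum_units (c : ZMod p) (hc : c ≠ 0) :
    ‖∑ x : (ZMod p)ˣ, (ZMod.stdAddChar (c * (x : ZMod p)) : ℂ)‖ ≤ 2 * Real.sqrt p := by
  have hpp : p.Prime := Fact.out
  have : NeZero p := ⟨hpp.ne_zero⟩
  have h1 : ∑ x : ZMod p, (ZMod.stdAddChar (c * x) : ℂ) = 0 := by
    have h2 := psi_sum' (p := p) c hc
    exact h2
  have h3 : ∑ x : (ZMod p)ˣ, (ZMod.stdAddChar (c * (x : ZMod p)) : ℂ) = -1 := by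
    have h4 : ∑ x : ZMod p, (ZMod.stdAddChar (c * x) : ℂ) =
        ∑ x : (ZMod p)ˣ, (ZMod.stdAddChar (c * (x : ZMod p)) : ℂ) + 1 := by
      classical
      rw [← Finset.sum_erase_add _ _ (Finset.mem_univ (0 : ZMod p)), mul_zero, AddChar.map_zero_eq_one]
      congr 1
      refine (Finset.sum_bij (fun (x : (ZMod p)ˣ) _ => (x : ZMod p)) ?_ ?_ ?_ ?_).symm
      · intro x _
        exact Finset.mem_erase.2 ⟨x.ne_zero, Finset.mem_univ _⟩
      · intro x _ y _ h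
        exact Units.ext h
      · intro y hy
        exact ⟨Units.mk0 y (Finset.ne_of_mem_erase hy), Finset.mem_univ _, rfl⟩
      · intro x _
        rfl
    rw [h1] at h4
    linear_combination -h4
  rw [h3, norm_neg, norm_one]
  have : (1 : ℝ) ≤ Real.sqrt p := Real.one_le_sqrt.2 (by exact_mod_cast hpp.one_lt.le)
  linarith

theorem hyp_sum (a : ZMod p) (ha : a ≠ 0) (h : Fin 2 → ZMod p) (hh : h ≠ 0) :
    ‖∑ x ∈ (Finset.univ : Finset (ZMod p)ˣ), (ZMod.stdAddChar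
      (∑ j, h j * (![(x : ZMod p), a * ((x⁻¹ : (ZMod p)ˣ) : ZMod p)] : Fin 2 → ZMod p) j) : ℂ)‖ ≤
      2 * Real.sqrt p := by
  have e : ∀ x : (ZMod p)ˣ, ∑ j, h j * (![(x : ZMod p), a * ((x⁻¹ : (ZMod p)ˣ) : ZMod p)] :
      Fin 2 → ZMod p) j = h 0 * (x : ZMod p) + (h 1 * a) * ((x⁻¹ : (ZMod p)ˣ) : ZMod p) := by
    intro x
    rw [Fin.sum_univ_two]
    simp only [Matrix.cons_val_zero, Matrix.cons_val_one]
    ring
  rw [Finset.sum_congr rfl fun x _ => by rw [e x]]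
  by_cases h0 : h 0 = 0
  · have h1 : h 1 ≠ 0 := by
      intro h1
      apply hh
      funext j
      fin_cases j
      · exact h0
      · exact h1
    have e2 : ∑ x : (ZMod p)ˣ, (ZMod.stdAddChar
        (h 0 * (x : ZMod p) + (h 1 * a) * ((x⁻¹ : (ZMod p)ˣ) : ZMod p)) : ℂ) =
        ∑ x : (ZMod p)ˣ, (ZMod.stdAddChar ((h 1 * a) * (x : ZMod p)) : ℂ) := by
      refine Fintype.sum_equiv (Equiv.inv (ZMod p)ˣ) _ _ fun x => ?_
      rw [h0, zero_mul, zero_add]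
      rfl
    rw [e2]
    exact sum_units _ (mul_ne_zero h1 ha)
  · by_cases h1 : h 1 = 0
    · have e2 : ∑ x : (ZMod p)ˣ, (ZMod.stdAddChar
          (h 0 * (x : ZMod p) + (h 1 * a) * ((x⁻¹ : (ZMod p)ˣ) : ZMod p)) : ℂ) =
          ∑ x : (ZMod p)ˣ, (ZMod.stdAddChar (h 0 * (x : ZMod p)) : ℂ) := by
        refine Finset.sum_congr rfl fun x _ => ?_
        rw [h1, zero_mul, zero_mul, add_zero]
      rw [e2]
      exact sum_units _ h0
    · exact Pool.Agent.H498R2.kloosterman_prime p (h 0) (h 1 * a) h0 (mul_ne_zero h1 ha)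

theorem hyperbola (ε : ℝ) (hε : 0 < ε) : ∃ κ : ℝ, 0 < κ ∧ ∃ p₀ : ℕ,
    ∀ p : ℕ, p.Prime → p₀ ≤ p → ∀ a L₁ R₁ L₂ R₂ : ℕ, ¬ p ∣ a → L₁ ≤ R₁ → R₁ < p → L₂ ≤ R₂ →
      R₂ < p → (p : ℝ) ^ (3 / 2 + ε) ≤ ((R₁ - L₁ : ℕ) : ℝ) * ((R₂ - L₂ : ℕ) : ℝ) →
      ∃ x y : ℕ, L₁ < x ∧ x ≤ R₁ ∧ L₂ < y ∧ y ≤ R₂ ∧ x * y ≡ a [MOD p] ∧
        ∀ q : ℕ, q.Prime → κ * ff p < |(q : ℝ) - x| ∧ κ * ff p < |(q : ℝ) - y| := by
  set δ : ℝ := min (ε / 2) (1 / 2) with hδ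
  have hδ0 : 0 < δ := lt_min (by linarith) (by norm_num)
  have hδ1 : δ ≤ 1 / 2 := min_le_right _ _
  have hδε : δ ≤ ε / 2 := min_le_left _ _
  obtain ⟨κ, hκ, p₀, hcrit⟩ := critBox 2 (by norm_num) δ hδ0
  obtain ⟨M₁, hM₁⟩ := eventually_atTop.1 (Pool.Agent.W147.PS.ev_pow (5 / 2 + δ) (5 / 2 + ε) 4
    (by linarith))
  refine ⟨κ, hκ, max p₀ (max ⌈M₁⌉₊ 2), ?_⟩
  intro p hpp hp a L₁ R₁ L₂ R₂ hpa h1 h2 h3 h4 harea
  haveI : Fact p.Prime := ⟨hpp⟩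
  have : NeZero p := ⟨hpp.ne_zero⟩
  have hp1R : (1 : ℝ) < p := by exact_mod_cast hpp.one_lt
  have hp0R : (0 : ℝ) < p := by linarith
  have hp2R : (2 : ℝ) ≤ p := by exact_mod_cast hpp.two_le
  have hpM : M₁ ≤ p := (Nat.le_ceil _).trans (by
    exact_mod_cast ((le_max_left _ _).trans (le_max_right _ _)).trans hp)
  have haZ : (a : ZMod p) ≠ 0 := by
    rw [Ne, ZMod.natCast_eq_zero_iff]
    exact hpa
  set l₁ : ℝ := (R₁ : ℝ) - L₁ with hl₁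
  set l₂ : ℝ := (R₂ : ℝ) - L₂ with hl₂
  have c1 : ((R₁ - L₁ : ℕ) : ℝ) = l₁ := Nat.cast_sub h1
  have c2 : ((R₂ - L₂ : ℕ) : ℝ) = l₂ := Nat.cast_sub h3
  rw [c1, c2] at harea
  have hR₁ : (R₁ : ℝ) < p := by exact_mod_cast h2
  have hR₂ : (R₂ : ℝ) < p := by exact_mod_cast h4
  have hL₁ : (0 : ℝ) ≤ L₁ := Nat.cast_nonneg _
  have hL₂ : (0 : ℝ) ≤ L₂ := Nat.cast_nonneg _
  have b1 : l₁ ≤ p := by linarith
  have b2 : l₂ ≤ p := by linarith
  have b3 : 0 ≤ l₁ := by rw [← c1]; exact Nat.cast_nonneg _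
  have b4 : 0 ≤ l₂ := by rw [← c2]; exact Nat.cast_nonneg _
  have hpow : (p : ℝ) ^ (3 / 2 + ε) = p * (p : ℝ) ^ (1 / 2 + ε) := by
    rw [← Real.rpow_one_add' hp0R.le (by linarith)]
    congr 1
    ring
  have hhalf : (p : ℝ) ^ δ ≤ (p : ℝ) ^ (1 / 2 + ε) :=
    Real.rpow_le_rpow_of_exponent_le hp1R.le (by linarith)
  have w1 : (p : ℝ) ^ δ ≤ l₁ := by
    refine hhalf.trans ?_
    have : p * (p : ℝ) ^ (1 / 2 + ε) ≤ p * l₁ := by
      rw [← hpow]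
      refine harea.trans ?_
      rw [mul_comm]
      exact mul_le_mul_of_nonneg_right b2 b3
    exact le_of_mul_le_mul_left this hp0R
  have w2 : (p : ℝ) ^ δ ≤ l₂ := by
    refine hhalf.trans ?_
    have : p * (p : ℝ) ^ (1 / 2 + ε) ≤ p * l₂ := by
      rw [← hpow]
      exact harea.trans (mul_le_mul_of_nonneg_right b1 b4)
    exact le_of_mul_le_mul_left this hp0R
  obtain ⟨x, -, hx⟩ := hcrit p ((le_max_left _ _).trans hp) (ZMod p)ˣ Finset.univ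
    (fun x => ![(x : ZMod p), (a : ZMod p) * ((x⁻¹ : (ZMod p)ˣ) : ZMod p)]) ![L₁, L₂] ![R₁, R₂]
    (2 * Real.sqrt p) ⟨1, Finset.mem_univ _⟩ (by positivity)
    (by
      intro j
      fin_cases j
      · exact h2
      · exact h4)
    (by
      intro j
      fin_cases j
      · exact w1
      · exact w2)
    (fun h hh => hyp_sum _ haZ h hh)
    (by
      rw [Fin.prod_univ_two]
      simp only [Matrix.cons_val_zero, Matrix.cons_val_one]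
      have hcard : ((Finset.univ : Finset (ZMod p)ˣ).card : ℝ) = p - 1 := by
        rw [Finset.card_univ, ZMod.card_units, Nat.cast_sub hpp.one_lt.le, Nat.cast_one]
      rw [hcard, ← hl₁, ← hl₂, Real.sqrt_eq_rpow]
      have g1 := hM₁ p hpM
      have g2 : 2 * (p : ℝ) ^ (1 / 2 : ℝ) * (p : ℝ) ^ (((2 : ℕ) : ℝ) + δ) =
          2 * (p : ℝ) ^ (5 / 2 + δ) := by
        rw [mul_assoc, ← Real.rpow_add hp0R]
        congr 2
        push_cast
        ring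
      have g3 : (p : ℝ) ^ (5 / 2 + ε) = p * (p : ℝ) ^ (3 / 2 + ε) := by
        rw [← Real.rpow_one_add' hp0R.le (by linarith)]
        congr 1
        ring
      rw [g2]
      calc 2 * (p : ℝ) ^ (5 / 2 + δ) ≤ (p : ℝ) ^ (5 / 2 + ε) / 2 := by linarith
        _ = p / 2 * (p : ℝ) ^ (3 / 2 + ε) := by rw [g3]; ring
        _ ≤ (p - 1) * (l₁ * l₂) := mul_le_mul (by linarith) harea (by positivity) (by linarith))
  have hx0 := hx 0
  have hx1 := hx 1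
  simp only [Matrix.cons_val_zero, Matrix.cons_val_one] at hx0 hx1
  refine ⟨(x : ZMod p).val, ((a : ZMod p) * ((x⁻¹ : (ZMod p)ˣ) : ZMod p)).val, hx0.1, hx0.2.1,
    hx1.1, hx1.2.1, ?_, fun q hq => ⟨hx0.2.2 q hq, hx1.2.2 q hq⟩⟩
  rw [← ZMod.natCast_eq_natCast_iff, Nat.cast_mul, ZMod.natCast_zmod_val, ZMod.natCast_zmod_val]
  have : (x : ZMod p) * ((x⁻¹ : (ZMod p)ˣ) : ZMod p) = 1 := Units.mul_inv x
  linear_combination (a : ZMod p) * this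

end Pool.Agent.X164.MP
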