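import Pool.Agent.X164.MP.CritP
import Pool.Agent.X164.MP.Bil
set_option autoImplicit false
set_option linter.unusedSectionVars false

/-! Record prime gaps around least residues of polynomials of products. -/

namespace Pool.Agent.X164.MP

open Finset Polynomial Filter
open Pool.Agent.H256R2.SC (ff)

/-- **Main theorem.** -/
theorem products (r k : ℕ) (hr : 1 ≤ r) (ε : ℝ) (hε : 0 < ε) : ∃ κ : ℝ, 0 < κ ∧ ∃ p₀ : ℕ,
    ∀ (p : ℕ) [Fact p.Prime], p₀ ≤ p → ∀ F : Fin r → (ZMod p)[X], (∀ j, (F j).natDegree ≤ k) →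
      (∀ (h : Fin r → ZMod p) (c : ZMod p), ∑ j, C (h j) * F j = C c → h = 0) →
      ∀ A B : Finset (ZMod p), (p : ℝ) ^ (1 + ε) ≤ A.card * B.card →
        ∃ a ∈ A, ∃ b ∈ B, ∀ j, ∀ q : ℕ, q.Prime →
          κ * ff p < |(q : ℝ) - (((F j).eval (a * b)).val : ℝ)| := by
  classical
  obtain ⟨κ, hκ, p₀, h⟩ := critP r hr (ε / 8) (by positivity)
  have ev := (tendsto_rpow_atTop (show 0 < ε / 4 by positivity)).eventually_ge_atTop (2 * k : ℝ)
  obtain ⟨M₀, hM₀⟩ := eventually_atTop.1 ev
  refine ⟨κ, hκ, max p₀ (max ⌈M₀⌉₊ (k + 1)), ?_⟩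
  intro p _ hp F hFk hF A B hAB
  have hpp : p.Prime := Fact.out
  have hp1 : p₀ ≤ p := (le_max_left _ _).trans hp
  have hp2 : M₀ ≤ p := (Nat.le_ceil _).trans
    (by exact_mod_cast ((le_max_left _ _).trans (le_max_right _ _)).trans hp)
  have hkp : k < p := by
    have := ((le_max_right _ _).trans (le_max_right _ _)).trans hp
    omega
  have hk2 := hM₀ p hp2
  have hp0 : (0 : ℝ) < p := by exact_mod_cast hpp.pos
  have hABpos : (0 : ℝ) < A.card * B.card := lt_of_lt_of_le (by positivity) hAB
  have hne : (A ×ˢ B).Nonempty := by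
    rw [← Finset.card_pos, Finset.card_product]
    exact_mod_cast hABpos
  obtain ⟨z, hz, hgap⟩ := h p hp1 (ZMod p × ZMod p) (A ×ˢ B)
    (fun z j => (F j).eval (z.1 * z.2)) hne (by
      intro c hc
      set G : (ZMod p)[X] := ∑ j, C (c j) * F j with hG
      have hev : ∀ x : ZMod p, ∑ j, c j * (F j).eval x = G.eval x := by
        intro x
        rw [hG, eval_finset_sum]
        refine Finset.sum_congr rfl fun j _ => ?_
        rw [eval_mul, eval_C]
      have hGk : G.natDegree ≤ k := by
        rw [hG]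
        refine natDegree_sum_le_of_forall_le _ _ fun j _ => ?_
        exact (natDegree_C_mul_le _ _).trans (hFk j)
      have hG1 : 1 ≤ G.natDegree := by
        by_contra hcon
        have h0 : G.natDegree = 0 := by omega
        obtain ⟨d, hd⟩ := natDegree_eq_zero.1 h0
        exact hc (hF c d (by rw [← hG, hd]))
      simp only [hev]
      rw [Finset.sum_product, Finset.card_product]
      push_cast
      have hexp : -(ε / 8) = -(ε / 8) := rfl
      rcases le_total B.card A.card with hle | hle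
      · exact bilin_saving hkp hε hk2 G hG1 hGk A B hAB hle
      · have h1 := bilin_saving hkp hε hk2 G hG1 hGk B A (by rw [mul_comm]; exact hAB) hle
        rw [Finset.sum_comm, mul_comm (A.card : ℝ)]
        simp only [mul_comm] at h1 ⊢
        exact h1)
  obtain ⟨ha, hb⟩ := Finset.mem_product.1 hz
  exact ⟨z.1, ha, z.2, hb, hgap⟩

end Pool.Agent.X164.MP
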