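import Pool.Agent.X164.MP.Diag
import Pool.Agent.H353R2.Z2
set_option autoImplicit false
set_option linter.unusedSectionVars false

/-! Sums over primitive roots. -/

namespace Pool.Agent.X164.MP

open Finset Filter Polynomial
open Pool.Agent.H256R2.SC (ff)

theorem sum_period (h : ℕ → ℂ) (m : ℕ) (hp : ∀ i, h (i + m) = h i) (d : ℕ) :
    ∑ i ∈ range (m * d), h i = d * ∑ j ∈ range m, h j := by
  have hper : ∀ l i, h (m * l + i) = h i := by
    intro l
    induction l with
    | zero => intro i; rw [Nat.mul_zero, Nat.zero_add]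
    | succ l ih =>
      intro i
      rw [show m * (l + 1) + i = (m * l + i) + m by ring, hp, ih]
  induction d with
  | zero => simp
  | succ d ih =>
    rw [Nat.mul_succ, Finset.sum_range_add, ih, Finset.sum_congr rfl fun j _ => hper d j]
    push_cast
    ring

theorem sum_mult (h : ℕ → ℂ) (n d : ℕ) (hd : d ∣ n) (hd0 : 0 < d) :
    ∑ a ∈ (range n).filter (fun a => d ∣ a), h a = ∑ j ∈ range (n / d), h (d * j) := by
  symm
  refine Finset.sum_bij (fun j _ => d * j) ?_ ?_ ?_ ?_
  · intro j hj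
    rw [Finset.mem_filter, Finset.mem_range]
    refine ⟨?_, dvd_mul_right _ _⟩
    have := Finset.mem_range.1 hj
    calc d * j < d * (n / d) := Nat.mul_lt_mul_of_pos_left this hd0
      _ = n := Nat.mul_div_cancel' hd
  · intro a _ b _ hab
    exact Nat.eq_of_mul_eq_mul_left hd0 hab
  · intro b hb
    obtain ⟨hb1, c, rfl⟩ := Finset.mem_filter.1 hb
    refine ⟨c, ?_, rfl⟩
    rw [Finset.mem_range] at hb1 ⊢
    rw [Nat.lt_div_iff_mul_lt_of_dvd hd0.ne' hd]
    rwa [mul_comm]
  · intro j _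
    rfl

theorem moebius_sum (m : ℕ) :
    ∑ d ∈ m.divisors, ((ArithmeticFunction.moebius d : ℤ) : ℂ) = if m = 1 then 1 else 0 := by
  have h := ArithmeticFunction.coe_mul_zeta_apply (f := ArithmeticFunction.moebius) (x := m)
  rw [ArithmeticFunction.moebius_mul_coe_zeta, ArithmeticFunction.one_apply] at h
  have h2 : ((∑ d ∈ m.divisors, ArithmeticFunction.moebius d : ℤ) : ℂ) = ((if m = 1 then 1 else 0 : ℤ) : ℂ) := by
    rw [← h]
  push_cast at h2
  rw [h2]

variable {p : ℕ} [Fact p.Prime]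

theorem prim_sum (f : (ZMod p)ˣ → ℂ) :
    ∑ u ∈ (Finset.univ : Finset (ZMod p)ˣ).filter (fun u => orderOf u = p - 1), f u =
      ∑ d ∈ (p - 1).divisors, ((ArithmeticFunction.moebius d : ℤ) : ℂ) / d *
        ∑ y : (ZMod p)ˣ, f (y ^ d) := by
  classical
  have hpp : p.Prime := Fact.out
  set n := p - 1 with hn
  have hn0 : 0 < n := by have := hpp.two_le; omega
  obtain ⟨g, hg⟩ := IsCyclic.exists_generator (α := (ZMod p)ˣ)
  have hog : orderOf g = n := by
    rw [orderOf_eq_card_of_forall_mem_zpowers hg, Nat.card_eq_fintype_card, ZMod.card_units]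
  have himg : Finset.image (fun i => g ^ i) (range n) = Finset.univ := by
    have := IsCyclic.image_range_orderOf hg
    rwa [hog] at this
  have hsum : ∀ F : (ZMod p)ˣ → ℂ, ∑ u : (ZMod p)ˣ, F u = ∑ a ∈ range n, F (g ^ a) := by
    intro F
    rw [← himg, Finset.sum_image]
    intro a ha b hb hab
    have ha' := Finset.mem_range.1 (Finset.mem_coe.1 ha)
    have hb' := Finset.mem_range.1 (Finset.mem_coe.1 hb)
    exact pow_injOn_Iio_orderOf (by rw [Set.mem_Iio, hog]; exact ha')
      (by rw [Set.mem_Iio, hog]; exact hb') hab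
  have hL : ∑ u ∈ (Finset.univ : Finset (ZMod p)ˣ).filter (fun u => orderOf u = n), f u =
      ∑ a ∈ range n, ∑ d ∈ n.divisors, if d ∣ a then
        ((ArithmeticFunction.moebius d : ℤ) : ℂ) * f (g ^ a) else 0 := by
    rw [Finset.sum_filter, hsum]
    refine Finset.sum_congr rfl fun a _ => ?_
    have h1 : orderOf (g ^ a) = n ↔ Nat.gcd n a = 1 := by
      rw [orderOf_pow, hog]
      constructor
      · intro h
        have h2 := Nat.div_mul_cancel (Nat.gcd_dvd_left n a)
        rw [h] at h2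
        exact Nat.eq_of_mul_eq_mul_left hn0 (by rw [h2, mul_one])
      · intro h
        rw [h, Nat.div_one]
    have h2 : ∑ d ∈ n.divisors, (if d ∣ a then
        ((ArithmeticFunction.moebius d : ℤ) : ℂ) * f (g ^ a) else 0) =
        (∑ d ∈ (Nat.gcd n a).divisors, ((ArithmeticFunction.moebius d : ℤ) : ℂ)) * f (g ^ a) := by
      rw [← Finset.sum_filter, Finset.sum_mul]
      refine Finset.sum_congr ?_ fun _ _ => rfl
      ext d
      simp only [Finset.mem_filter, Nat.mem_divisors]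
      constructor
      · rintro ⟨⟨h3, _⟩, h4⟩
        exact ⟨Nat.dvd_gcd h3 h4, (Nat.gcd_pos_of_pos_left a hn0).ne'⟩
      · rintro ⟨h3, _⟩
        exact ⟨⟨h3.trans (Nat.gcd_dvd_left _ _), hn0.ne'⟩, h3.trans (Nat.gcd_dvd_right _ _)⟩
    rw [h2, moebius_sum _]
    by_cases h5 : Nat.gcd n a = 1
    · rw [if_pos (h1.2 h5), if_pos h5, one_mul]
    · rw [if_neg (fun h => h5 (h1.1 h)), if_neg h5, zero_mul]
  rw [hL, Finset.sum_comm]
  refine Finset.sum_congr rfl fun d hd => ?_
  have hdn : d ∣ n := Nat.dvd_of_mem_divisors hd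
  have hd0 : 0 < d := Nat.pos_of_dvd_of_pos hdn hn0
  have hdC : (d : ℂ) ≠ 0 := by exact_mod_cast hd0.ne'
  rw [← Finset.sum_filter, sum_mult _ n d hdn hd0, hsum, ← Finset.mul_sum]
  have h3 : ∑ a ∈ range n, f ((g ^ a) ^ d) = d * ∑ j ∈ range (n / d), f (g ^ (d * j)) := by
    have h4 := sum_period (fun i => f (g ^ (d * i))) (n / d) (by
      intro i
      have : g ^ (d * (i + n / d)) = g ^ (d * i) := by
        rw [mul_add, Nat.mul_div_cancel' hdn, pow_add, ← hog, pow_orderOf_eq_one, mul_one]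
      simp only [this]) d
    rw [Nat.div_mul_cancel hdn] at h4
    rw [← h4]
    refine Finset.sum_congr rfl fun a _ => ?_
    rw [← pow_mul, mul_comm a d]
  rw [h3]
  field_simp

theorem prim_bound (k : ℕ) (hkp : k < p) (G : (ZMod p)[X]) (hG : G.natDegree ≤ k)
    (hG1 : 1 ≤ G.natDegree) :
    ‖∑ u ∈ (Finset.univ : Finset (ZMod p)ˣ).filter (fun u => orderOf u = p - 1),
      (ZMod.stdAddChar (G.eval (u : ZMod p)) : ℂ)‖ ≤ (p - 1).divisors.card * (k * Real.sqrt p) := by
  classical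
  have hpp : p.Prime := Fact.out
  have hn0 : 0 < p - 1 := by have := hpp.two_le; omega
  have hps := prim_sum (p := p) (fun u : (ZMod p)ˣ => (ZMod.stdAddChar (G.eval (u : ZMod p)) : ℂ))
  rw [hps]
  refine (norm_sum_le _ _).trans ?_
  have h1 : ∀ d ∈ (p - 1).divisors, ‖((ArithmeticFunction.moebius d : ℤ) : ℂ) / d *
        ∑ y : (ZMod p)ˣ, (ZMod.stdAddChar (G.eval (((y ^ d : (ZMod p)ˣ)) : ZMod p)) : ℂ)‖ ≤
        k * Real.sqrt p := by
    intro d hd
    have hdn : d ∣ p - 1 := Nat.dvd_of_mem_divisors hd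
    have hd0 : 0 < d := Nat.pos_of_dvd_of_pos hdn hn0
    have hdR : (0 : ℝ) < d := by exact_mod_cast hd0
    have hdp : d < p := lt_of_le_of_lt (Nat.le_of_dvd hn0 hdn) (by omega)
    have hdeg : (G.comp (X ^ d)).natDegree = G.natDegree * d := by
      rw [natDegree_comp, natDegree_X_pow]
    have hnd : ¬ p ∣ (G.comp (X ^ d)).natDegree := by
      rw [hdeg]
      intro hdv
      rcases hpp.dvd_mul.1 hdv with h2 | h2
      · have := Nat.le_of_dvd (by omega) h2
        omega
      · have := Nat.le_of_dvd hd0 h2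
        omega
    have hw := Pool.Agent.Y951.WP.weil_le p (G.comp (X ^ d)) hnd (ZMod.isPrimitive_stdAddChar p)
    have he : ∀ x : ZMod p, (G.comp (X ^ d)).eval x = G.eval (x ^ d) := by
      intro x
      rw [eval_comp, eval_pow, eval_X]
    simp only [he] at hw
    have h3 : ∑ x : ZMod p, (ZMod.stdAddChar (G.eval (x ^ d)) : ℂ) =
        ∑ y : (ZMod p)ˣ, (ZMod.stdAddChar (G.eval (((y ^ d : (ZMod p)ˣ)) : ZMod p)) : ℂ) +
          (ZMod.stdAddChar (G.eval ((0 : ZMod p) ^ d)) : ℂ) := by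
      rw [← Finset.sum_erase_add _ _ (Finset.mem_univ (0 : ZMod p))]
      congr 1
      refine (Finset.sum_bij (fun (x : (ZMod p)ˣ) _ => (x : ZMod p)) ?_ ?_ ?_ ?_).symm
      · intro x _
        exact Finset.mem_erase.2 ⟨x.ne_zero, Finset.mem_univ _⟩
      · intro x _ y _ h
        exact Units.ext h
      · intro y hy
        exact ⟨Units.mk0 y (Finset.ne_of_mem_erase hy), Finset.mem_univ _, rfl⟩
      · intro x _
        rw [Units.val_pow_eq_pow_val]
    have h4 : ‖∑ y : (ZMod p)ˣ, (ZMod.stdAddChar (G.eval (((y ^ d : (ZMod p)ˣ)) : ZMod p)) : ℂ)‖ ≤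
        d * (k * Real.sqrt p) := by
      have h5 : ∑ y : (ZMod p)ˣ, (ZMod.stdAddChar (G.eval (((y ^ d : (ZMod p)ˣ)) : ZMod p)) : ℂ) =
          ∑ x : ZMod p, (ZMod.stdAddChar (G.eval (x ^ d)) : ℂ) -
            (ZMod.stdAddChar (G.eval ((0 : ZMod p) ^ d)) : ℂ) := by
        rw [h3]; ring
      rw [h5]
      refine (norm_sub_le _ _).trans ?_
      rw [norm_psi]
      have hs1 : (1 : ℝ) ≤ Real.sqrt p := Real.one_le_sqrt.2 (by exact_mod_cast hpp.one_lt.le)
      rw [hdeg] at hw
      have h6 : ((G.natDegree * d - 1 : ℕ) : ℝ) = G.natDegree * d - 1 := by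
        rw [Nat.cast_sub (Nat.mul_pos (by omega) hd0)]
        push_cast
        ring
      rw [h6] at hw
      have h7 : (G.natDegree : ℝ) ≤ k := by exact_mod_cast hG
      have h8 : (G.natDegree : ℝ) * d * Real.sqrt p ≤ k * d * Real.sqrt p := by gcongr
      linarith
    rw [norm_mul, norm_div, Complex.norm_natCast]
    have h9 : ‖((ArithmeticFunction.moebius d : ℤ) : ℂ)‖ ≤ 1 := by
      rw [Complex.norm_intCast]
      exact_mod_cast ArithmeticFunction.abs_moebius_le_one
    calc ‖((ArithmeticFunction.moebius d : ℤ) : ℂ)‖ / d *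
          ‖∑ y : (ZMod p)ˣ, (ZMod.stdAddChar (G.eval (((y ^ d : (ZMod p)ˣ)) : ZMod p)) : ℂ)‖ ≤
          1 / d * (d * (k * Real.sqrt p)) := by gcongr
      _ = k * Real.sqrt p := by field_simp
  refine (Finset.sum_le_sum h1).trans ?_
  rw [Finset.sum_const, nsmul_eq_mul]

end Pool.Agent.X164.MP
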