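import Pool.Agent.X164.MP.Prim
set_option autoImplicit false

/-! Record prime gaps around polynomial values at primitive roots in boxes. -/

namespace Pool.Agent.X164.MP

open Finset Filter Polynomial
open Pool.Agent.H256R2.SC (ff)

theorem div_pow_bound (δ : ℝ) (hδ : 0 < δ) (A : ℝ) : ∃ N₀ : ℕ, ∀ n : ℕ, N₀ ≤ n →
    A * ((n.divisors.card : ℝ)) ^ 2 ≤ (n : ℝ) ^ δ := by
  obtain ⟨m, hm'⟩ := exists_nat_gt (max (4 / δ) 2)
  have hm : 4 / δ < m := lt_of_le_of_lt (le_max_left _ _) hm'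
  have hm2' : (2 : ℝ) < m := lt_of_le_of_lt (le_max_right _ _) hm'
  have hm0 : (0 : ℝ) < m := lt_trans (by positivity) hm
  have hm0' : 0 < m := by exact_mod_cast hm0
  obtain ⟨K, hK⟩ := H353.divisor_bound m
  -- card ≤ (K n)^(1/m)
  set B : ℝ := |A| * ((K : ℝ) + 1) with hB
  obtain ⟨M, hM⟩ := eventually_atTop.1
    ((tendsto_rpow_atTop (show 0 < δ / 2 by positivity)).eventually_ge_atTop B)
  refine ⟨max 1 ⌈M⌉₊, fun n hn => ?_⟩
  have hn1 : 1 ≤ n := (le_max_left _ _).trans hn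
  have hnM : M ≤ n := (Nat.le_ceil _).trans (by exact_mod_cast (le_max_right _ _).trans hn)
  have hn0R : (0 : ℝ) < n := by exact_mod_cast hn1
  have hn1R : (1 : ℝ) ≤ n := by exact_mod_cast hn1
  have h1 : ((n.divisors.card : ℝ)) ^ m ≤ (K + 1) * n := by
    have : ((n.divisors.card) ^ m : ℕ) ≤ (K + 1) * n :=
      (hK n (by omega)).trans (Nat.mul_le_mul_right _ (Nat.le_succ _))
    exact_mod_cast this
  have hK1 : (1 : ℝ) ≤ (K : ℝ) + 1 := by
    have : (0 : ℝ) ≤ K := Nat.cast_nonneg _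
    linarith
  have h2 : ((n.divisors.card : ℝ)) ^ 2 ≤ ((K : ℝ) + 1) * (n : ℝ) ^ (δ / 2) := by
    have hc0 : (0 : ℝ) ≤ (n.divisors.card : ℝ) := Nat.cast_nonneg _
    have e1 : ((n.divisors.card : ℝ)) ^ 2 = ((((n.divisors.card : ℝ)) ^ m) ^ (2 / (m : ℝ))) := by
      rw [← Real.rpow_natCast ((n.divisors.card : ℝ)) m, ← Real.rpow_mul hc0,
        mul_div_cancel₀ _ hm0.ne']
      norm_num
    rw [e1]
    have hm2 : 2 / (m : ℝ) ≤ δ / 2 := by
      rw [div_le_iff₀ hm0]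
      rw [div_lt_iff₀ hδ] at hm
      nlinarith
    have hm3 : 2 / (m : ℝ) ≤ 1 := by
      rw [div_le_one hm0]
      exact hm2'.le
    calc ((((n.divisors.card : ℝ)) ^ m) ^ (2 / (m : ℝ))) ≤ (((K : ℝ) + 1) * n) ^ (2 / (m : ℝ)) :=
          Real.rpow_le_rpow (by positivity) h1 (by positivity)
      _ = ((K : ℝ) + 1) ^ (2 / (m : ℝ)) * (n : ℝ) ^ (2 / (m : ℝ)) :=
          Real.mul_rpow (by positivity) (by positivity)
      _ ≤ ((K : ℝ) + 1) ^ (1 : ℝ) * (n : ℝ) ^ (δ / 2) := by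
          gcongr
      _ = _ := by rw [Real.rpow_one]
  calc A * ((n.divisors.card : ℝ)) ^ 2 ≤ |A| * (((K : ℝ) + 1) * (n : ℝ) ^ (δ / 2)) :=
        mul_le_mul (le_abs_self A) h2 (by positivity) (abs_nonneg A)
    _ = B * (n : ℝ) ^ (δ / 2) := by rw [hB]; ring
    _ ≤ (n : ℝ) ^ (δ / 2) * (n : ℝ) ^ (δ / 2) :=
        mul_le_mul_of_nonneg_right (hM n hnM) (by positivity)
    _ = (n : ℝ) ^ δ := by
        rw [← Real.rpow_add hn0R]
        congr 1
        ring

theorem le_card_mul_totient (n : ℕ) (hn : 1 ≤ n) : n ≤ n.divisors.card * Nat.totient n := by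
  calc n = ∑ d ∈ n.divisors, Nat.totient d := (Nat.sum_totient n).symm
    _ ≤ ∑ _d ∈ n.divisors, Nat.totient n := by
        apply Finset.sum_le_sum
        intro d hd
        exact Nat.le_of_dvd (Nat.totient_pos.mpr hn)
          (Nat.totient_dvd_of_dvd (Nat.dvd_of_mem_divisors hd))
    _ = _ := by rw [Finset.sum_const, smul_eq_mul]

theorem prim_main (r k : ℕ) (hr : 1 ≤ r) (ε : ℝ) (hε : 0 < ε) : ∃ κ : ℝ, 0 < κ ∧ ∃ p₀ : ℕ,
    ∀ (p : ℕ) [Fact p.Prime], p₀ ≤ p → ∀ F : Fin r → (ZMod p)[X], (∀ j, (F j).natDegree ≤ k) →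
      (∀ (h : Fin r → ZMod p) (c : ZMod p), ∑ j, C (h j) * F j = C c → h = 0) →
      ∀ L R : Fin r → ℕ, (∀ j, L j ≤ R j) → (∀ j, R j < p) →
      (p : ℝ) ^ ((r : ℝ) - 1 / 2 + ε) ≤ ∏ j, ((R j : ℝ) - L j) →
      ∃ g : ZMod p, orderOf g = p - 1 ∧ ∀ j, L j < ((F j).eval g).val ∧
        ((F j).eval g).val ≤ R j ∧
        ∀ q : ℕ, q.Prime → κ * ff p < |(q : ℝ) - (((F j).eval g).val : ℝ)| := by
  classical
  set δ : ℝ := min (ε / 4) (1 / 4) with hδ
  have hδ0 : 0 < δ := lt_min (by positivity) (by norm_num)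
  have hδε : δ ≤ ε / 4 := min_le_left _ _
  have hδ1 : δ ≤ 1 / 4 := min_le_right _ _
  obtain ⟨κ, hκ, p₀, hcrit⟩ := critBox r hr δ hδ0
  obtain ⟨N₁, hN₁⟩ := div_pow_bound δ hδ0 (2 * k)
  refine ⟨κ, hκ, max (max p₀ (k + 2)) (N₁ + 2), ?_⟩
  intro p hfp hp F hFk hF L R hLR hR hvol
  have hpp : p.Prime := Fact.out
  have : NeZero p := ⟨hpp.ne_zero⟩
  have hp2 : 2 ≤ p := hpp.two_le
  have hp1R : (1 : ℝ) < p := by exact_mod_cast hpp.one_lt
  have hp0R : (0 : ℝ) < p := by linarith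
  have hkp : k < p := by
    have := ((le_max_right _ _).trans (le_max_left _ _)).trans hp
    omega
  have hpN : N₁ ≤ p - 1 := by
    have := (le_max_right _ _).trans hp
    omega
  have hn1 : 1 ≤ p - 1 := by omega
  have hpn : ((p - 1 : ℕ) : ℝ) = (p : ℝ) - 1 := by
    rw [Nat.cast_sub (by omega), Nat.cast_one]
  set τ : ℝ := ((p - 1).divisors.card : ℝ) with hτ
  have hτ1 : 1 ≤ τ := by
    rw [hτ]
    exact_mod_cast Finset.card_pos.2 ⟨1, Nat.one_mem_divisors.2 (by omega)⟩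
  have hdiv : 2 * k * τ ^ 2 ≤ (p : ℝ) ^ δ := by
    refine (hN₁ (p - 1) hpN).trans ?_
    exact Real.rpow_le_rpow (Nat.cast_nonneg _) (by rw [hpn]; linarith) hδ0.le
  set s : Finset (ZMod p)ˣ := (Finset.univ : Finset (ZMod p)ˣ).filter
    (fun u => orderOf u = p - 1) with hs
  have hscard : s.card = Nat.totient (p - 1) := by
    have h1 := IsCyclic.card_orderOf_eq_totient (α := (ZMod p)ˣ) (d := p - 1)
      (by rw [ZMod.card_units])
    exact h1
  have hcard : (p : ℝ) / (2 * τ) ≤ (s.card : ℝ) := by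
    rw [div_le_iff₀ (by positivity), hscard]
    have h1 := le_card_mul_totient (p - 1) hn1
    have h2 : ((p - 1 : ℕ) : ℝ) ≤ τ * (Nat.totient (p - 1) : ℝ) := by
      rw [hτ]
      exact_mod_cast h1
    rw [hpn] at h2
    have hp2R : (2 : ℝ) ≤ p := by exact_mod_cast hp2
    nlinarith
  have hspos : (0 : ℝ) < (s.card : ℝ) := lt_of_lt_of_le (by positivity) hcard
  have hlen0 : ∀ j, (0 : ℝ) ≤ (R j : ℝ) - L j := fun j => by
    have : (L j : ℝ) ≤ R j := by exact_mod_cast hLR j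
    linarith
  have hlenp : ∀ j, (R j : ℝ) - L j ≤ p := fun j => by
    have h1 : (R j : ℝ) < p := by exact_mod_cast hR j
    have h2 : (0 : ℝ) ≤ L j := Nat.cast_nonneg _
    linarith
  have hlen : ∀ j, (p : ℝ) ^ δ ≤ (R j : ℝ) - L j := by
    intro j
    have h1 : ∏ i, ((R i : ℝ) - L i) ≤ ((R j : ℝ) - L j) * (p : ℝ) ^ ((r : ℝ) - 1) := by
      rw [← Finset.mul_prod_erase Finset.univ _ (Finset.mem_univ j)]
      refine mul_le_mul_of_nonneg_left ?_ (hlen0 j)
      calc ∏ i ∈ Finset.univ.erase j, ((R i : ℝ) - L i) ≤ ∏ _i ∈ Finset.univ.erase j, (p : ℝ) :=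
            Finset.prod_le_prod (fun i _ => hlen0 i) fun i _ => hlenp i
        _ = (p : ℝ) ^ (r - 1) := by
            rw [Finset.prod_const, Finset.card_erase_of_mem (Finset.mem_univ j), Finset.card_univ,
              Fintype.card_fin]
        _ = (p : ℝ) ^ ((r : ℝ) - 1) := by
            rw [← Real.rpow_natCast]
            congr 1
            rw [Nat.cast_sub hr, Nat.cast_one]
    have h2 : (p : ℝ) ^ ((r : ℝ) - 1 / 2 + ε) =
        (p : ℝ) ^ (1 / 2 + ε) * (p : ℝ) ^ ((r : ℝ) - 1) := by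
      rw [← Real.rpow_add hp0R]
      congr 1
      ring
    have h3 : (p : ℝ) ^ (1 / 2 + ε) ≤ (R j : ℝ) - L j := by
      have h4 : (p : ℝ) ^ (1 / 2 + ε) * (p : ℝ) ^ ((r : ℝ) - 1) ≤
          ((R j : ℝ) - L j) * (p : ℝ) ^ ((r : ℝ) - 1) := by
        rw [← h2]
        exact hvol.trans h1
      exact le_of_mul_le_mul_right h4 (by positivity)
    exact (Real.rpow_le_rpow_of_exponent_le hp1R.le (by linarith)).trans h3
  obtain ⟨u, hu, hgap⟩ := hcrit p (((le_max_left _ _).trans (le_max_left _ _)).trans hp)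
    (ZMod p)ˣ s (fun u j => (F j).eval (u : ZMod p)) L R (τ * (k * Real.sqrt p))
    (Finset.card_pos.1 (by exact_mod_cast hspos)) (by positivity) hR hlen
    (by
      intro c hc
      set G : (ZMod p)[X] := ∑ j, C (c j) * F j with hG
      have hev : ∀ x : ZMod p, ∑ j, c j * (F j).eval x = G.eval x := by
        intro x
        rw [hG, eval_finsetSum]
        refine Finset.sum_congr rfl fun j _ => ?_
        rw [eval_mul, eval_C]
      have hGk : G.natDegree ≤ k := by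
        rw [hG]
        refine natDegree_sum_le_of_forall_le _ _ fun j _ => ?_
        exact (natDegree_C_mul_le _ _).trans (hFk j)
      have hG1 : 1 ≤ G.natDegree := by
        by_contra hcon
        have h0 : G.natDegree = 0 := by omega
        obtain ⟨d, hd⟩ := natDegree_eq_zero.1 h0
        exact hc (hF c d (by rw [← hG, hd]))
      simp only [hev]
      exact prim_bound k hkp G hGk hG1)
    (by
      rw [Real.sqrt_eq_rpow]
      have e1 : τ * (k * (p : ℝ) ^ (1 / 2 : ℝ)) * (p : ℝ) ^ ((r : ℝ) + δ) =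
          τ * k * (p : ℝ) ^ ((r : ℝ) + δ + 1 / 2) := by
        have e0 := Real.rpow_add hp0R (1 / 2) ((r : ℝ) + δ)
        rw [show (r : ℝ) + δ + 1 / 2 = 1 / 2 + ((r : ℝ) + δ) by ring, e0]
        ring
      have e2 : (p : ℝ) ^ δ * (p : ℝ) ^ ((r : ℝ) + δ + 1 / 2) ≤
          p * (p : ℝ) ^ ((r : ℝ) - 1 / 2 + ε) := by
        rw [← Real.rpow_add hp0R, ← Real.rpow_one_add' hp0R.le (by
          have : (1 : ℝ) ≤ r := by exact_mod_cast hr
          linarith)]
        exact Real.rpow_le_rpow_of_exponent_le hp1R.le (by linarith)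
      rw [e1]
      have hrr : (0 : ℝ) ≤ (p : ℝ) ^ ((r : ℝ) + δ + 1 / 2) := by positivity
      calc τ * k * (p : ℝ) ^ ((r : ℝ) + δ + 1 / 2) =
          (2 * k * τ ^ 2) * (p : ℝ) ^ ((r : ℝ) + δ + 1 / 2) / (2 * τ) := by
            field_simp
        _ ≤ (p : ℝ) ^ δ * (p : ℝ) ^ ((r : ℝ) + δ + 1 / 2) / (2 * τ) := by gcongr
        _ ≤ p * (p : ℝ) ^ ((r : ℝ) - 1 / 2 + ε) / (2 * τ) := by gcongr
        _ = p / (2 * τ) * (p : ℝ) ^ ((r : ℝ) - 1 / 2 + ε) := by ring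
        _ ≤ (s.card : ℝ) * ∏ j, ((R j : ℝ) - L j) :=
            mul_le_mul hcard hvol (by positivity) (by positivity))
  rw [hs, Finset.mem_filter] at hu
  exact ⟨(u : ZMod p), by rw [orderOf_units]; exact hu.2, fun j => hgap j⟩

end Pool.Agent.X164.MP
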