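import Pool.Agent.X164.MP.Four
set_option autoImplicit false
set_option linter.unusedSectionVars false

/-! Residue classes above a bound, as sets modulo a prime. -/

namespace Pool.Agent.X164.MP

open Finset
open Pool.Agent.Y933.KD Pool.Agent.Y951.MW

variable {p : ℕ} [Fact p.Prime]

/-- the elements above `L` in the residue class `ρ` modulo `q` -/
noncomputable def cls (p : ℕ) [Fact p.Prime] (L q : ℕ) (ρ : ℤ) : Finset (ZMod p) :=
  Finset.univ.filter (fun y => L < y.val ∧ (q : ℤ) ∣ (y.val : ℤ) - ρ)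

theorem mem_cls {L q : ℕ} {ρ : ℤ} {y : ZMod p} :
    y ∈ cls p L q ρ ↔ L < y.val ∧ (q : ℤ) ∣ (y.val : ℤ) - ρ := by
  unfold cls
  simp

/-- the class as an arithmetic progression -/
theorem cls_eq {L q : ℕ} (hL : L < p) (hq : 1 ≤ q) (hqp : q < p) (ρ : ℤ) :
    ∃ (u v : ℕ) (c : ZMod p), u ≤ v ∧ v ≤ 2 * p ∧
      |((v - u : ℕ) : ℝ) - ((p : ℝ) - 1 - L) / q| ≤ 1 ∧
      (∀ j ∈ Finset.Ioc u v, ∀ j' ∈ Finset.Ioc u v, c + (q : ZMod p) * (j : ZMod p) =
        c + (q : ZMod p) * (j' : ZMod p) → j = j') ∧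
      cls p L q ρ = (Finset.Ioc u v).image (fun j : ℕ => c + (q : ZMod p) * (j : ZMod p)) := by
  have hpp : p.Prime := Fact.out
  have : NeZero p := ⟨hpp.ne_zero⟩
  have hqZ : (0 : ℤ) < q := by exact_mod_cast hq
  obtain ⟨ρ0, hρ0⟩ : ∃ ρ0 : ℕ, (ρ0 : ℤ) = ρ % q :=
    ⟨(ρ % q).toNat, Int.toNat_of_nonneg (Int.emod_nonneg _ hqZ.ne')⟩
  have hρ1 : ρ0 < q := by
    have := Int.emod_lt_of_pos ρ hqZ
    rw [← hρ0] at this
    exact_mod_cast this
  have hρ2 : (q : ℤ) ∣ (ρ0 : ℤ) - ρ := by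
    rw [hρ0]
    exact ⟨-(ρ / q), by have := Int.emod_add_mul_ediv ρ q; linarith⟩
  obtain ⟨u, hu⟩ : ∃ u : ℕ, u = (L + (q - ρ0)) / q := ⟨_, rfl⟩
  obtain ⟨v, hv⟩ : ∃ v : ℕ, v = (p - 1 + (q - ρ0)) / q := ⟨_, rfl⟩
  have hu1 : q * u ≤ L + (q - ρ0) := by rw [hu]; exact Nat.mul_div_le _ _
  have hu2 : L + (q - ρ0) < q * (u + 1) := by
    rw [hu, mul_add, mul_one]
    have := Nat.div_add_mod (L + (q - ρ0)) q
    have := Nat.mod_lt (L + (q - ρ0)) hq
    omega
  have hv1 : q * v ≤ p - 1 + (q - ρ0) := by rw [hv]; exact Nat.mul_div_le _ _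
  have hv2 : p - 1 + (q - ρ0) < q * (v + 1) := by
    rw [hv, mul_add, mul_one]
    have := Nat.div_add_mod (p - 1 + (q - ρ0)) q
    have := Nat.mod_lt (p - 1 + (q - ρ0)) hq
    omega
  have huv : u ≤ v := by
    rw [hu, hv]
    exact Nat.div_le_div_right (by omega)
  -- the value of the point with index `j`
  have hval : ∀ j : ℕ, u < j → j ≤ v → L + (q - ρ0) < q * j ∧ q * j ≤ p - 1 + (q - ρ0) := by
    intro j h1 h2
    constructor
    · exact hu2.trans_le (Nat.mul_le_mul_left _ h1)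
    · exact (Nat.mul_le_mul_left _ h2).trans hv1
  have hpt : ∀ j : ℕ, u < j → j ≤ v →
      (((q * j - (q - ρ0) : ℕ) : ℕ) : ZMod p) =
        -(((q - ρ0 : ℕ) : ℕ) : ZMod p) + (q : ZMod p) * (j : ZMod p) := by
    intro j h1 h2
    have h3 := hval j h1 h2
    rw [Nat.cast_sub (by omega)]
    push_cast
    ring
  have hptval : ∀ j : ℕ, u < j → j ≤ v →
      (-(((q - ρ0 : ℕ) : ℕ) : ZMod p) + (q : ZMod p) * (j : ZMod p)).val =
        q * j - (q - ρ0) := by
    intro j h1 h2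
    have h3 := hval j h1 h2
    rw [← hpt j h1 h2, ZMod.val_natCast, Nat.mod_eq_of_lt (by omega)]
  refine ⟨u, v, -(((q - ρ0 : ℕ) : ℕ) : ZMod p), huv, ?_, ?_, ?_, ?_⟩
  · have : v ≤ q * v := Nat.le_mul_of_pos_left _ hq
    omega
  · have hqR : (0 : ℝ) < q := by exact_mod_cast hq
    have hp1 : 1 ≤ p := hpp.one_lt.le
    have c1 : (q : ℝ) * u ≤ L + ((q - ρ0 : ℕ) : ℝ) := by exact_mod_cast hu1
    have c2 : L + ((q - ρ0 : ℕ) : ℝ) < q * (u + 1) := by exact_mod_cast hu2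
    have c3 : (q : ℝ) * v ≤ (p - 1 : ℕ) + ((q - ρ0 : ℕ) : ℝ) := by exact_mod_cast hv1
    have c4 : ((p - 1 : ℕ) : ℝ) + ((q - ρ0 : ℕ) : ℝ) < q * (v + 1) := by exact_mod_cast hv2
    have c5 : ((p - 1 : ℕ) : ℝ) = p - 1 := by rw [Nat.cast_sub hp1, Nat.cast_one]
    rw [Nat.cast_sub huv, abs_le]
    rw [c5] at c3 c4
    constructor
    · rw [neg_le_sub_iff_le_add, div_le_iff₀ hqR]
      nlinarith
    · rw [sub_le_iff_le_add, ← sub_le_iff_le_add', le_div_iff₀ hqR]
      nlinarith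
  · intro j hj j' hj' h
    rw [Finset.mem_Ioc] at hj hj'
    have h1 := congrArg ZMod.val h
    rw [hptval j hj.1 hj.2, hptval j' hj'.1 hj'.2] at h1
    have h3 := hval j hj.1 hj.2
    have h4 := hval j' hj'.1 hj'.2
    have h5 : q * j = q * j' := by omega
    exact Nat.eq_of_mul_eq_mul_left hq h5
  · ext y
    rw [mem_cls, Finset.mem_image]
    constructor
    · rintro ⟨h1, h2⟩
      have h3 : (q : ℤ) ∣ (y.val : ℤ) - ρ0 := by
        have := dvd_sub h2 hρ2
        have e : (y.val : ℤ) - ρ - ((ρ0 : ℤ) - ρ) = (y.val : ℤ) - ρ0 := by ring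
        rwa [e] at this
      obtain ⟨c, hc⟩ := h3
      have hyp : y.val < p := ZMod.val_lt y
      -- `y.val = ρ0 + q c`, `c ≥ 0`
      have hc0 : 0 ≤ c := by
        by_contra hneg
        push Not at hneg
        have : (q : ℤ) * c ≤ -q := by nlinarith
        have : (ρ0 : ℤ) < q := by exact_mod_cast hρ1
        have : (0 : ℤ) ≤ y.val := Int.natCast_nonneg _
        linarith
      obtain ⟨c', rfl⟩ := Int.eq_ofNat_of_zero_le hc0
      have h4 : y.val = ρ0 + q * c' := by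
        have : (y.val : ℤ) = ρ0 + q * c' := by linarith
        exact_mod_cast this
      have h5 : q * (c' + 1) = q * c' + q := by ring
      have h6 : u < c' + 1 := by
        by_contra hcon
        push Not at hcon
        have := Nat.mul_le_mul_left q hcon
        omega
      have h7 : c' + 1 ≤ v := by
        by_contra hcon
        push Not at hcon
        have : v + 1 ≤ c' + 1 := hcon
        have := Nat.mul_le_mul_left q this
        omega
      refine ⟨c' + 1, Finset.mem_Ioc.2 ⟨h6, h7⟩, ?_⟩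
      apply ZMod.val_injective p
      rw [hptval _ h6 h7]
      omega
    · rintro ⟨j, hj, rfl⟩
      rw [Finset.mem_Ioc] at hj
      have h3 := hval j hj.1 hj.2
      rw [hptval j hj.1 hj.2]
      refine ⟨by omega, ?_⟩
      have e : ((q * j - (q - ρ0) : ℕ) : ℤ) - ρ = q * (j - 1) + ((ρ0 : ℤ) - ρ) := by
        rw [Nat.cast_sub (by omega), Nat.cast_sub hρ1.le]
        push_cast
        ring
      rw [e]
      exact dvd_add (dvd_mul_right _ _) hρ2

theorem cls_card {L q : ℕ} (hL : L < p) (hq : 1 ≤ q) (hqp : q < p) (ρ : ℤ) :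
    |((cls p L q ρ).card : ℝ) - ((p : ℝ) - 1 - L) / q| ≤ 1 := by
  obtain ⟨u, v, c, huv, hv, h1, h2, h3⟩ := cls_eq hL hq hqp ρ
  rw [h3, Finset.card_image_of_injOn (fun j hj j' hj' h => h2 j (Finset.mem_coe.1 hj) j'
    (Finset.mem_coe.1 hj') h), Nat.card_Ioc]
  exact h1

theorem cls_fc {L q : ℕ} (hL : L < p) (hq : 1 ≤ q) (hqp : q < p) (ρ : ℤ) :
    ∑ h : ZMod p, ‖fc (cls p L q ρ) h‖ ≤ p * (5 + Real.log p) := by
  have hpp : p.Prime := Fact.out
  have : NeZero p := ⟨hpp.ne_zero⟩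
  obtain ⟨u, v, c, huv, hv, -, h2, h3⟩ := cls_eq hL hq hqp ρ
  have hq0 : (q : ZMod p) ≠ 0 := by
    intro h
    rw [ZMod.natCast_eq_zero_iff] at h
    exact absurd (Nat.le_of_dvd hq h) (by omega)
  set F : ℕ → ℝ := fun a => ‖∑ n ∈ Finset.Ioc u v, e (n * (0 - (a : ℝ) / p))‖ with hF
  have hfc : ∀ h : ZMod p, ‖fc (cls p L q ρ) h‖ = F (h * (q : ZMod p)).val := by
    intro h
    have e1 : fc (cls p L q ρ) h = (ZMod.stdAddChar (-(h * c)) : ℂ) *
        ∑ n ∈ Finset.Ioc u v, (ZMod.stdAddChar (-((h * (q : ZMod p)) * (n : ZMod p))) : ℂ) := by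
      unfold fc
      rw [h3, Finset.sum_image (fun j hj j' hj' h => h2 j hj j' hj' h), Finset.mul_sum]
      refine Finset.sum_congr rfl fun n _ => ?_
      rw [← AddChar.map_add_eq_mul]
      congr 1
      ring
    rw [e1, norm_mul, norm_psi, one_mul, hF]
    simp only
    congr 1
    refine Finset.sum_congr rfl fun n _ => ?_
    have e2 : -((h * (q : ZMod p)) * (n : ZMod p)) = ((-(((h * (q : ZMod p)).val : ℤ) * n) : ℤ) : ZMod p) := by
      push_cast
      rw [ZMod.natCast_zmod_val]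
    rw [e2, psi_int]
    congr 1
    push_cast
    ring
  have hsum : ∑ h : ZMod p, ‖fc (cls p L q ρ) h‖ = ∑ a ∈ Finset.range p, F a := by
    rw [← Pool.Agent.Y951.MW.sum_val, Finset.sum_congr rfl fun h _ => hfc h]
    exact Fintype.sum_equiv (Equiv.mulRight₀ (q : ZMod p) hq0) _ _ (fun h => rfl)
  rw [hsum]
  have h4 := sum_dist (p := p) hpp.one_lt.le 0 (N := 2 * p) (by positivity) F (by
    intro a
    rw [hF]
    simp only
    refine (norm_sum_le _ _).trans ?_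
    have : ∀ n ∈ Finset.Ioc u v, ‖e ((n : ℝ) * (0 - (a : ℝ) / p))‖ ≤ 1 := fun n _ => (norm_e _).le
    refine (Finset.sum_le_sum this).trans ?_
    rw [Finset.sum_const, Nat.card_Ioc, nsmul_eq_mul, mul_one]
    exact_mod_cast (Nat.sub_le v u).trans hv) (fun a => norm_nonneg _) (fun a => geom_le _ u v)
  linarith

end Pool.Agent.X164.MP
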