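import Pool.Agent.X164.MP.Hyp
import Pool.Agent.H226R2.ShanksGap
set_option autoImplicit false

/-! From the record scale to first occurrences; modular hyperbolas. -/

namespace Pool.Agent.X164.MP

open Finset Filter
open Pool.Agent.H256R2.SC (ff)

/-- The record scale is eventually increasing (proof from `Pool.Agent.Y565.RG.ff_mono_ev`). -/
lemma ff_mono : ∃ X₁ : ℝ, ∀ x y : ℝ, X₁ ≤ x → x ≤ y → ff x ≤ ff y := by
  refine ⟨Real.exp (Real.exp (Real.exp (Real.exp 1))), fun x y hx hxy => ?_⟩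
  have hx0 : 0 < x := lt_of_lt_of_le (Real.exp_pos _) hx
  have a1 : Real.exp (Real.exp (Real.exp 1)) ≤ Real.log x := by
    rw [← Real.log_exp (Real.exp (Real.exp (Real.exp 1)))]
    exact Real.log_le_log (Real.exp_pos _) hx
  have a1p : 0 < Real.log x := lt_of_lt_of_le (Real.exp_pos _) a1
  have a2 : Real.exp (Real.exp 1) ≤ Real.log (Real.log x) := by
    rw [← Real.log_exp (Real.exp (Real.exp 1))]
    exact Real.log_le_log (Real.exp_pos _) a1
  have a2p : 0 < Real.log (Real.log x) := lt_of_lt_of_le (Real.exp_pos _) a2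
  have a3 : Real.exp 1 ≤ Real.log (Real.log (Real.log x)) := by
    rw [← Real.log_exp (Real.exp 1)]
    exact Real.log_le_log (Real.exp_pos _) a2
  have a3p : 0 < Real.log (Real.log (Real.log x)) := lt_of_lt_of_le (Real.exp_pos _) a3
  have a4 : 1 ≤ Real.log (Real.log (Real.log (Real.log x))) := by
    rw [← Real.log_exp 1]
    exact Real.log_le_log (Real.exp_pos _) a3
  have b1 : Real.log x ≤ Real.log y := Real.log_le_log hx0 hxy
  have b2 : Real.log (Real.log x) ≤ Real.log (Real.log y) := Real.log_le_log a1p b1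
  have b3 : Real.log (Real.log (Real.log x)) ≤ Real.log (Real.log (Real.log y)) :=
    Real.log_le_log a2p b2
  have b4 : Real.log (Real.log (Real.log (Real.log x))) ≤ Real.log (Real.log (Real.log (Real.log y))) :=
    Real.log_le_log a3p b3
  have hee : Real.exp 1 ≤ Real.exp (Real.exp 1) := by
    apply Real.exp_le_exp.2
    linarith [Real.add_one_le_exp (1 : ℝ)]
  have h : Real.log (Real.log (Real.log y)) / Real.log (Real.log y) ≤
      Real.log (Real.log (Real.log x)) / Real.log (Real.log x) :=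
    Real.log_div_self_antitoneOn (by simpa using hee.trans a2) (by simpa using (hee.trans a2).trans b2) b2
  have hb3p : 0 < Real.log (Real.log (Real.log y)) := lt_of_lt_of_le a3p b3
  have hb2p : 0 < Real.log (Real.log y) := lt_of_lt_of_le a2p b2
  have h' : Real.log (Real.log x) / Real.log (Real.log (Real.log x)) ≤
      Real.log (Real.log y) / Real.log (Real.log (Real.log y)) := by
    rw [div_le_div_iff₀ hb2p a2p] at h
    rw [div_le_div_iff₀ a3p hb3p]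
    linarith
  have e : ∀ t : ℝ, ff t = Real.log t * (Real.log (Real.log t) / Real.log (Real.log (Real.log t))) ^ 2 *
      Real.log (Real.log (Real.log (Real.log t))) := by
    intro t
    unfold ff
    rw [div_pow]
    ring
  rw [e, e]
  have hq : 0 ≤ Real.log (Real.log x) / Real.log (Real.log (Real.log x)) := by positivity
  have hlx : 0 ≤ Real.log y := a1p.le.trans b1
  gcongr

/-- A run of composite numbers of length `g` at the scale `exp (C g (log₂ g)² / ((log g)² log₃ g))`. -/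
theorem first_scale (κ : ℝ) (hκ : 0 < κ) (X₀ : ℝ) : ∃ C : ℝ, 0 < C ∧ ∃ G : ℕ, ∀ g : ℕ, G ≤ g →
    ∀ Z : ℝ, Real.exp (C * g * (Real.log (Real.log g)) ^ 2 /
      ((Real.log g) ^ 2 * Real.log (Real.log (Real.log g)))) ≤ Z → X₀ ≤ Z ∧ (g : ℝ) ≤ κ * ff Z := by
  obtain ⟨X₁, hX₁⟩ := ff_mono
  obtain ⟨G, hG⟩ := Pool.Agent.H226R2.ShanksGap.ana κ hκ (max X₀ X₁)
  refine ⟨16 / κ, by positivity, G, fun g hg Z hZ => ?_⟩
  obtain ⟨h1, h2⟩ := hG g hg
  obtain ⟨h1a, h1b⟩ := max_le_iff.1 h1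
  refine ⟨h1a.trans hZ, ?_⟩
  set Q : ℝ := (16 / κ) * g * (Real.log (Real.log g)) ^ 2 /
      ((Real.log g) ^ 2 * Real.log (Real.log (Real.log g))) with hQ
  have hff : ff (Real.exp Q) = Q * (Real.log Q) ^ 2 * Real.log (Real.log (Real.log Q)) /
      (Real.log (Real.log Q)) ^ 2 := by
    unfold ff
    rw [Real.log_exp]
  have h5 : κ * ff (Real.exp Q) ≤ κ * ff Z :=
    mul_le_mul_of_nonneg_left (hX₁ _ _ h1b hZ) hκ.le
  rw [hff] at h5
  linarith

theorem hyperbola_first (ε : ℝ) (hε : 0 < ε) : ∃ C : ℝ, 0 < C ∧ ∃ G : ℕ, ∀ g : ℕ, G ≤ g →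
    ∀ p : ℕ, p.Prime → Real.exp (C * g * (Real.log (Real.log g)) ^ 2 /
        ((Real.log g) ^ 2 * Real.log (Real.log (Real.log g)))) ≤ p →
    ∀ a L₁ R₁ L₂ R₂ : ℕ, ¬ p ∣ a → L₁ ≤ R₁ → R₁ < p → L₂ ≤ R₂ → R₂ < p →
      (p : ℝ) ^ (3 / 2 + ε) ≤ ((R₁ - L₁ : ℕ) : ℝ) * ((R₂ - L₂ : ℕ) : ℝ) →
      ∃ x y : ℕ, L₁ < x ∧ x ≤ R₁ ∧ L₂ < y ∧ y ≤ R₂ ∧ x * y ≡ a [MOD p] ∧
        ∀ q : ℕ, q.Prime → (g : ℝ) < |(q : ℝ) - x| ∧ (g : ℝ) < |(q : ℝ) - y| := by
  obtain ⟨κ, hκ, p₀, h⟩ := hyperbola ε hε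
  obtain ⟨C, hC, G, hG⟩ := first_scale κ hκ p₀
  refine ⟨C, hC, G, fun g hg p hp hpZ a L₁ R₁ L₂ R₂ ha h1 h2 h3 h4 h5 => ?_⟩
  obtain ⟨c1, c2⟩ := hG g hg p hpZ
  obtain ⟨x, y, e1, e2, e3, e4, e5, e6⟩ := h p hp (by exact_mod_cast c1) a L₁ R₁ L₂ R₂ ha h1 h2 h3 h4 h5
  exact ⟨x, y, e1, e2, e3, e4, e5, fun q hq => ⟨lt_of_le_of_lt c2 (e6 q hq).1,
    lt_of_le_of_lt c2 (e6 q hq).2⟩⟩

end Pool.Agent.X164.MP
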